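import Pool.Agent.N849.PM.Loc2

/-!
# Local analysis over `M` at the additive primes, at the zeros which are units

A variant of `N849/PM/Loc2` (helper849, after helper704): no condition on the residue field of `w`.
-/

set_option autoImplicit false
set_option linter.all false

open Polynomial IsDedekindDomain WithZero
open Pool.Agent.N874.PP Pool.Agent.N874.PM Pool.Agent.N849.PM
open scoped Classical

namespace Run7.h875

open Pool.Agent.N704.PP (vx near_one near sq1_of ev_of ev_of_sq1 mlt mlt' sq_or exp_odd)

/-- Primes dividing `D = ϖ D'`, at a zero `θ` which is a unit, if `- D'` and `2` are squares modulo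
`𝔓`. -/
theorem loc4 {M Ω R O : Type} [Field M] [Field Ω] [Algebra M Ω] [CommRing R]
    [IsDedekindDomain R] [Algebra R M] [IsFractionRing R M] [CommRing O] [IsDedekindDomain O]
    [Algebra O Ω] [IsFractionRing O Ω] (w : HeightOneSpectrum R) (𝔓 : HeightOneSpectrum O)
    (hL : Lies (M := M) (Ω := Ω) w 𝔓) (a b ϖ D' : M) (θ : Ω) (h : M[X])
    (hroot : θ ^ 3 + algebraMap M Ω a * θ + algebraMap M Ω b = 0) (h2 : w.valuation M 2 = 1)
    (ha : w.valuation M a ≤ 1) (hb : w.valuation M b < 1)
    (hϖ : w.valuation M ϖ = WithZero.exp (-1 : ℤ)) (hD : w.valuation M D' = 1)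
    (hθ : 𝔓.valuation Ω θ = 1)
    {s₁ : Ω} (hs₁ : 𝔓.valuation Ω (s₁ ^ 2 + algebraMap M Ω D') < 1)
    {s₂ : Ω} (hs₂ : 𝔓.valuation Ω (s₂ ^ 2 - 2) < 1)
    (hl : PLoc (w.adicCompletion M) (a * (ϖ * D') ^ 2) (b * (ϖ * D') ^ 3) h)
    (hne : aeval (algebraMap M Ω (ϖ * D') * θ) h ≠ 0)
    (hev : ¬ Ev 𝔓 (algebraMap M Ω ϖ * θ)) :
    U0 𝔓 (algebraMap M Ω ϖ * θ) (aeval (algebraMap M Ω (ϖ * D') * θ) h) := by
  obtain ⟨j, hj1, hj2, hj3⟩ := Pool.Agent.TH115.GD.exists_compl_map w 𝔓 (algebraMap M Ω) hL.le hL.lt
  have hΘ : (algebraMap M Ω (ϖ * D') * θ) ^ 3 + algebraMap M Ω (a * (ϖ * D') ^ 2) *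
      (algebraMap M Ω (ϖ * D') * θ) + algebraMap M Ω (b * (ϖ * D') ^ 3) = 0 := by
    simp only [map_mul, map_pow]
    linear_combination (algebraMap M Ω ϖ * algebraMap M Ω D') ^ 3 * hroot
  set Θ : Ω := algebraMap M Ω (ϖ * D') * θ with hΘd
  set α : Ω := aeval Θ h with hα
  have hϖ0 : ϖ ≠ 0 := by
    rintro rfl
    rw [map_zero] at hϖ
    exact exp_ne_zero hϖ.symm
  have hD0 : D' ≠ 0 := by
    rintro rfl
    rw [map_zero] at hD
    exact zero_ne_one hD
  have hQE : algebraMap M (w.adicCompletion M) ϖ ≠ 0 := by rw [Ne, map_eq_zero]; exact hϖ0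
  have hDE : algebraMap M (w.adicCompletion M) D' ≠ 0 := by rw [Ne, map_eq_zero]; exact hD0
  have hαE : algebraMap Ω (𝔓.adicCompletion Ω) α ≠ 0 := by rw [Ne, map_eq_zero]; exact hne
  -- it suffices to prove
  suffices hmain : Sq1 𝔓 α ∨ Sq1 𝔓 (α * (algebraMap M Ω ϖ * θ)) by
    rcases hmain with h3 | h3
    · exact u0_of_sq1 h3
    · exact u0_of_sq1' hne hev h3
  rcases ploc_cases j hj1 hΘ hl with ⟨g, hg⟩ | ⟨x, y, hy0, hxy, g, hg⟩
  · left
    refine sq1_of 𝔓 α g ?_
    rw [← hα] at hg
    rw [← hg, sub_self, map_zero]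
    exact zero_lt_iff.2 ((Valuation.ne_zero_iff _).2 hαE)
  · rw [← hα] at hg
    set q := algebraMap M (w.adicCompletion M) ϖ with hq
    set d := algebraMap M (w.adicCompletion M) D' with hd
    set a' := algebraMap M (w.adicCompletion M) a with ha'
    set b' := algebraMap M (w.adicCompletion M) b with hb'
    have hxy' : y ^ 2 = x ^ 3 + a' * (q * d) ^ 2 * x + b' * (q * d) ^ 3 := by
      rw [hxy]
      simp only [map_mul, map_pow, hq, hd, ha', hb']
    have va' : Valued.v a' ≤ 1 := by rw [ha', vx]; exact ha
    have vb' : Valued.v b' < 1 := by rw [hb', vx]; exact hb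
    have vd : Valued.v d = 1 := by rw [hd, vx, hD]
    have vq : Valued.v q = exp (-1 : ℤ) := by rw [hq, vx, hϖ]
    have jq : j q = algebraMap Ω (𝔓.adicCompletion Ω) (algebraMap M Ω ϖ) := by rw [hq, hj1]
    have jd : j d = algebraMap Ω (𝔓.adicCompletion Ω) (algebraMap M Ω D') := by rw [hd, hj1]
    set t := algebraMap Ω (𝔓.adicCompletion Ω) θ with ht
    have vt' : Valued.v t = 𝔓.valuation Ω θ := by rw [ht, vx]
    have vt : Valued.v t = 1 := by rw [vt', hθ]
    have hΘE : algebraMap Ω (𝔓.adicCompletion Ω) Θ = j q * j d * t := by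
      rw [hΘd, map_mul, map_mul, map_mul, jq, jd]
    rw [hΘE] at hg
    have hjd0 : j d ≠ 0 := by rw [Ne, map_eq_zero]; exact hDE
    have hjq0 : j q ≠ 0 := by rw [Ne, map_eq_zero]; exact hQE
    have vjd : Valued.v (j d) = 1 := by rw [jd, vx]; exact Lies.eq_one hL hD
    have hjy0 : j y ≠ 0 := by rw [Ne, map_eq_zero]; exact hy0
    have ht0 : t ≠ 0 := by
      intro h
      rw [h, map_zero] at vt
      exact zero_ne_one vt
    have v2 : Valued.v (2 : 𝔓.adicCompletion Ω) = 1 := by
      have e : (2 : 𝔓.adicCompletion Ω) = algebraMap Ω (𝔓.adicCompletion Ω) (algebraMap M Ω 2) := by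
        rw [map_ofNat, map_ofNat]
      rw [e, vx]
      exact Lies.eq_one hL h2
    have h20 : (2 : 𝔓.adicCompletion Ω) ≠ 0 := by
      intro h
      rw [h, map_zero] at v2
      exact zero_ne_one v2
    by_cases hx : Valued.v x ≤ Valued.v q
    · -- `x = ϖ D' x'`
      set x' := x / (q * d) with hx'
      have ex : x = q * d * x' := by
        rw [hx']; field_simp
      have vx' : Valued.v x' ≤ 1 := by
        rw [hx', map_div₀, map_mul, vd, mul_one]
        exact (div_le_one₀ (zero_lt_iff.2 ((Valuation.ne_zero_iff _).2 hQE))).2 hx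
      have hyx : y ^ 2 = (q * d) ^ 3 * (x' ^ 3 + a' * x' + b') := by
        rw [hxy', ex]; ring
      have vF : Valued.v (x' ^ 3 + a' * x' + b') < 1 := by
        have hle : Valued.v (x' ^ 3 + a' * x' + b') ≤ 1 := by
          refine (Valuation.map_add _ _ _).trans (max_le ?_ vb'.le)
          refine (Valuation.map_add _ _ _).trans (max_le ?_ ?_)
          · rw [map_pow]; exact pow_le_one' vx' 3
          · rw [map_mul]; exact mul_le_one' va' vx'
        refine lt_of_le_of_ne hle fun h4 => ?_
        have h5 := congrArg (Valued.v : w.adicCompletion M → WithZero (Multiplicative ℤ)) hyx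
        rw [map_pow, map_mul, h4, mul_one, map_pow, map_mul, vd, mul_one, vq, ← exp_nsmul] at h5
        refine exp_odd (x := 1) (y := Valued.v y) (n := 3 • (-1 : ℤ)) ⟨-2, by norm_num⟩
          one_ne_zero ?_
        rw [one_pow, one_mul]
        exact h5.symm
      have jx0 : Valued.v (j x') ≤ 1 := hj2 _ vx'
      have hg' : (j q * j d * j x' - j q * j d * t) * algebraMap Ω (𝔓.adicCompletion Ω) α =
          g ^ 2 := by
        rw [← hg, ex, map_mul, map_mul]
      have ja : j a' = algebraMap Ω (𝔓.adicCompletion Ω) (algebraMap M Ω a) := by rw [ha', hj1]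
      have jb : j b' = algebraMap Ω (𝔓.adicCompletion Ω) (algebraMap M Ω b) := by rw [hb', hj1]
      have ht3 : t ^ 3 + j a' * t + j b' = 0 := by
        rw [ja, jb, ht, ← map_pow, ← map_mul, ← map_add, ← map_add, hroot, map_zero]
      -- `t ^ 2 + a` is small
      have vta : Valued.v (t ^ 2 + j a') < 1 := by
        have e : (t ^ 2 + j a') * t = - j b' := by linear_combination ht3
        have h3 := congrArg (Valued.v : 𝔓.adicCompletion Ω → WithZero (Multiplicative ℤ)) e
        rw [map_mul, vt, mul_one, Valuation.map_neg] at h3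
        rw [h3]
        exact hj3 _ vb'
      -- `x'` is `0` or `± t`
      have v3 : Valued.v (j x' * (j x' - t) * (j x' + t)) < 1 := by
        have e : j x' * (j x' - t) * (j x' + t) = j (x' ^ 3 + a' * x' + b') -
            j x' * (t ^ 2 + j a') - j b' := by
          simp only [map_add, map_mul, map_pow]
          ring
        rw [e]
        refine lt_of_le_of_lt (Valuation.map_sub _ _ _) (max_lt ?_ (hj3 _ vb'))
        refine lt_of_le_of_lt (Valuation.map_sub _ _ _) (max_lt (hj3 _ vF) ?_)
        rw [map_mul]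
        exact mlt jx0 vta
      set β := algebraMap Ω (𝔓.adicCompletion Ω) (α * (algebraMap M Ω ϖ * θ)) with hβ
      have hβ' : β = algebraMap Ω (𝔓.adicCompletion Ω) α * (j q * t) := by
        rw [hβ, map_mul, map_mul, jq]
      have hβ0 : β ≠ 0 := by
        rw [hβ']
        exact mul_ne_zero hαE (mul_ne_zero hjq0 ht0)
      have vβ : 0 < Valued.v β := zero_lt_iff.2 ((Valuation.ne_zero_iff _).2 hβ0)
      -- the relation
      have rel : β * (1 - j x' / t) = - (j d) * (g / j d) ^ 2 := by
        rw [hβ', div_pow, ← hg']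
        field_simp
        ring
      have hs1' : Valued.v (algebraMap Ω (𝔓.adicCompletion Ω) s₁ ^ 2 + j d) < 1 := by
        rw [jd, ← map_pow, ← map_add, vx]
        exact hs₁
      have hs2' : Valued.v (algebraMap Ω (𝔓.adicCompletion Ω) s₂ ^ 2 - 2) < 1 := by
        have e : algebraMap Ω (𝔓.adicCompletion Ω) s₂ ^ 2 - 2 =
            algebraMap Ω (𝔓.adicCompletion Ω) (s₂ ^ 2 - 2) := by
          rw [map_sub, map_pow, map_ofNat]
        rw [e, vx]
        exact hs₂
      have vs2 : Valued.v (algebraMap Ω (𝔓.adicCompletion Ω) s₂ ^ 2) = 1 := by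
        have e : algebraMap Ω (𝔓.adicCompletion Ω) s₂ ^ 2 = 2 +
            (algebraMap Ω (𝔓.adicCompletion Ω) s₂ ^ 2 - 2) := by ring
        rw [e, Valuation.map_add_eq_of_lt_left _ (by rw [v2]; exact hs2'), v2]
      have hs20 : algebraMap Ω (𝔓.adicCompletion Ω) s₂ ≠ 0 := by
        intro h
        rw [h, zero_pow two_ne_zero, map_zero] at vs2
        exact zero_ne_one vs2
      rw [map_mul, map_mul] at v3
      rcases lt_or_eq_of_le jx0 with jx1 | jx1
      · -- `x'` is small
        right
        have v1 : Valued.v (1 - j x' / t) = 1 := by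
          rw [Valuation.map_sub_eq_of_lt_left _ (by
            rw [map_div₀, vt, div_one, map_one]; exact jx1), map_one]
        have v2' : Valued.v ((g / j d) ^ 2) = Valued.v β := by
          have := congrArg (Valued.v : 𝔓.adicCompletion Ω → WithZero (Multiplicative ℤ)) rel
          rw [map_mul, v1, mul_one, map_mul, Valuation.map_neg, vjd, one_mul] at this
          exact this.symm
        refine sq1_of 𝔓 _ (algebraMap Ω (𝔓.adicCompletion Ω) s₁ * (g / j d)) ?_
        rw [← hβ]
        have e : β - (algebraMap Ω (𝔓.adicCompletion Ω) s₁ * (g / j d)) ^ 2 =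
            β * (j x' / t) - (algebraMap Ω (𝔓.adicCompletion Ω) s₁ ^ 2 + j d) *
              (g / j d) ^ 2 := by
          linear_combination rel
        rw [e]
        refine lt_of_le_of_lt (Valuation.map_sub _ _ _) (max_lt ?_ ?_)
        · rw [map_mul, map_div₀, vt, div_one]
          calc _ < Valued.v β * 1 := mul_lt_mul_of_pos_left jx1 vβ
            _ = _ := mul_one _
        · rw [map_mul, v2']
          calc _ < 1 * Valued.v β := mul_lt_mul_of_pos_right hs1' vβ
            _ = _ := one_mul _
      · rw [jx1, one_mul] at v3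
        have hmle : Valued.v (j x' - t) ≤ 1 :=
          (Valuation.map_sub _ _ _).trans (max_le jx0 vt.le)
        have hple : Valued.v (j x' + t) ≤ 1 :=
          (Valuation.map_add _ _ _).trans (max_le jx0 vt.le)
        rcases lt_or_eq_of_le hmle with hm | hm
        · -- `x' = t`
          left
          have hjyx : j y ^ 2 = (j q * j d) ^ 3 * ((j x' - t) *
              (j x' ^ 2 + j x' * t + t ^ 2 + j a')) := by
            rw [← map_pow, hyx]
            simp only [map_mul, map_pow, map_add]
            linear_combination (j q * j d) ^ 3 * ht3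
          set c := j x' ^ 2 + j x' * t + t ^ 2 + j a' with hc
          have hc1 : Valued.v (c - 2 * t ^ 2) < 1 := by
            have e : c - 2 * t ^ 2 = (j x' - t) * (j x' + 2 * t) + (t ^ 2 + j a') := by
              rw [hc]; ring
            rw [e]
            refine lt_of_le_of_lt (Valuation.map_add _ _ _) (max_lt ?_ vta)
            rw [map_mul]
            refine mlt' hm ((Valuation.map_add _ _ _).trans (max_le jx0 ?_))
            rw [map_mul, v2, one_mul, vt]
          have vc : Valued.v c = 1 := by
            have e : c = 2 * t ^ 2 + (c - 2 * t ^ 2) := by ring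
            have h5 : Valued.v (2 * t ^ 2) = 1 := by rw [map_mul, v2, map_pow, vt]; simp
            rw [e, Valuation.map_add_eq_of_lt_left _ (by rw [h5]; exact hc1), h5]
          have hjxt : j x' - t ≠ 0 := by
            intro h
            rw [h, zero_mul, mul_zero] at hjyx
            exact hjy0 (by simpa using hjyx)
          -- `α y ^ 2 = g ^ 2 (ϖ D') ^ 2 c`
          have rel2 : algebraMap Ω (𝔓.adicCompletion Ω) α = (g * (j q * j d) / j y) ^ 2 * c := by
            rw [div_pow, mul_pow, ← hg', hjyx]
            have hc0 : c ≠ 0 := by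
              intro h
              rw [h, map_zero] at vc
              exact zero_ne_one vc
            field_simp
          refine sq1_of 𝔓 α (algebraMap Ω (𝔓.adicCompletion Ω) s₂ * t *
            (g * (j q * j d) / j y)) ?_
          have vα := congrArg (Valued.v : 𝔓.adicCompletion Ω → WithZero (Multiplicative ℤ)) rel2
          rw [map_mul, vc, mul_one] at vα
          have e : algebraMap Ω (𝔓.adicCompletion Ω) α - (algebraMap Ω (𝔓.adicCompletion Ω) s₂ * t *
            (g * (j q * j d) / j y)) ^ 2 = (g * (j q * j d) / j y) ^ 2 *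
              ((c - 2 * t ^ 2) - (algebraMap Ω (𝔓.adicCompletion Ω) s₂ ^ 2 - 2) * t ^ 2) := by
            rw [rel2]; ring
          rw [e, map_mul, ← vα]
          calc _ < Valued.v (algebraMap Ω (𝔓.adicCompletion Ω) α) * 1 := by
                refine mul_lt_mul_of_pos_left ?_
                  (zero_lt_iff.2 ((Valuation.ne_zero_iff _).2 hαE))
                refine lt_of_le_of_lt (Valuation.map_sub _ _ _) (max_lt hc1 ?_)
                rw [map_mul, map_pow, vt, one_pow, mul_one]
                exact hs2'
            _ = _ := mul_one _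
        · -- `x' = - t`
          right
          rw [hm, one_mul] at v3
          have v1' : Valued.v (1 - j x' / t - 2) < 1 := by
            have e : 1 - j x' / t - 2 = - ((j x' + t) / t) := by field_simp; ring
            rw [e, Valuation.map_neg, map_div₀, vt, div_one]
            exact v3
          have v1 : Valued.v (1 - j x' / t) = 1 := by
            have e : 1 - j x' / t = 2 + (1 - j x' / t - 2) := by ring
            rw [e, Valuation.map_add_eq_of_lt_left _ (by rw [v2]; exact v1'), v2]
          have v2' : Valued.v ((g / j d) ^ 2) = Valued.v β := by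
            have := congrArg (Valued.v : 𝔓.adicCompletion Ω → WithZero (Multiplicative ℤ)) rel
            rw [map_mul, v1, mul_one, map_mul, Valuation.map_neg, vjd, one_mul] at this
            exact this.symm
          refine sq1_of 𝔓 _ (algebraMap Ω (𝔓.adicCompletion Ω) s₁ /
            algebraMap Ω (𝔓.adicCompletion Ω) s₂ * (g / j d)) ?_
          rw [← hβ]
          have e : β - (algebraMap Ω (𝔓.adicCompletion Ω) s₁ /
            algebraMap Ω (𝔓.adicCompletion Ω) s₂ * (g / j d)) ^ 2 =
              (β * ((algebraMap Ω (𝔓.adicCompletion Ω) s₂ ^ 2 - 2) - (1 - j x' / t - 2)) -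
                (algebraMap Ω (𝔓.adicCompletion Ω) s₁ ^ 2 + j d) * (g / j d) ^ 2) /
                algebraMap Ω (𝔓.adicCompletion Ω) s₂ ^ 2 := by
            have hgd : (g / j d) ^ 2 * j d = - (β * (1 - j x' / t)) := by
              linear_combination rel
            rw [eq_div_iff (pow_ne_zero 2 hs20), mul_pow, div_pow]
            have e3 : (β - algebraMap Ω (𝔓.adicCompletion Ω) s₁ ^ 2 /
                algebraMap Ω (𝔓.adicCompletion Ω) s₂ ^ 2 * (g / j d) ^ 2) *
                algebraMap Ω (𝔓.adicCompletion Ω) s₂ ^ 2 =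
                β * algebraMap Ω (𝔓.adicCompletion Ω) s₂ ^ 2 -
                algebraMap Ω (𝔓.adicCompletion Ω) s₁ ^ 2 * (g / j d) ^ 2 := by
              rw [sub_mul]
              congr 1
              rw [mul_right_comm, div_mul_cancel₀ _ (pow_ne_zero 2 hs20)]
            rw [e3]
            linear_combination hgd
          rw [e, map_div₀, vs2, div_one]
          refine lt_of_le_of_lt (Valuation.map_sub _ _ _) (max_lt ?_ ?_)
          · rw [map_mul]
            calc _ < Valued.v β * 1 := mul_lt_mul_of_pos_left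
                  (lt_of_le_of_lt (Valuation.map_sub _ _ _) (max_lt hs2' v1')) vβ
              _ = _ := mul_one _
          · rw [map_mul, v2']
            calc _ < 1 * Valued.v β := mul_lt_mul_of_pos_right hs1' vβ
              _ = _ := one_mul _
    · left
      rw [not_le] at hx
      have hx0 : x ≠ 0 := by
        rintro rfl
        rw [map_zero] at hx
        exact absurd hx (by simp)
      set ξ := q / x with hξ
      have vξ : Valued.v ξ < 1 := by
        rw [hξ, map_div₀]
        exact (div_lt_one₀ (zero_lt_iff.2 ((Valuation.ne_zero_iff _).2 hx0))).2 hx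
      have eq : q = ξ * x := by rw [hξ]; field_simp
      set ε := a' * d ^ 2 * ξ ^ 2 + b' * d ^ 3 * ξ ^ 3 with hε
      have vε : Valued.v ε < 1 := by
        refine lt_of_le_of_lt (Valuation.map_add _ _ _) (max_lt ?_ ?_)
        · rw [map_mul, map_mul, map_pow, vd, one_pow, mul_one, map_pow]
          exact mlt va' (pow_lt_one₀ zero_le vξ two_ne_zero)
        · rw [map_mul, map_mul, map_pow, vd, one_pow, mul_one, map_pow]
          exact mlt vb'.le (pow_lt_one₀ zero_le vξ three_ne_zero)
      have hy : y ^ 2 = x ^ 3 * (1 + ε) := by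
        rw [hxy', hε, eq]; ring
      have hjx0 : j x ≠ 0 := by rw [Ne, map_eq_zero]; exact hx0
      have hjy : j y ^ 2 = j x ^ 3 * (1 + j ε) := by
        rw [← map_pow, hy, map_mul, map_pow, map_add, map_one]
      have vjε : Valued.v (j ε) < 1 := hj3 _ vε
      have vj1 : Valued.v (1 + j ε) = 1 := by
        rw [Valuation.map_add_eq_of_lt_left _ (by rw [map_one]; exact vjε), map_one]
      have hj1ε : (1 + j ε) ≠ 0 := by
        intro h
        rw [h, map_zero] at vj1
        exact zero_ne_one vj1
      set ε' := - (j d * t * j ξ) with hε'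
      have vε' : Valued.v ε' < 1 := by
        rw [hε', Valuation.map_neg, map_mul, map_mul, vt]
        refine mlt ?_ (hj3 _ vξ)
        exact mul_le_one' (hj2 _ vd.le) le_rfl
      have hg' : j x * (1 + ε') * algebraMap Ω (𝔓.adicCompletion Ω) α = g ^ 2 := by
        rw [← hg, hε', eq, map_mul]; ring
      refine sq1_of 𝔓 α (g * j x / j y) ?_
      have e : algebraMap Ω (𝔓.adicCompletion Ω) α - (g * j x / j y) ^ 2 =
          algebraMap Ω (𝔓.adicCompletion Ω) α * ((j ε - ε') / (1 + j ε)) := by
        rw [div_pow, mul_pow, ← hg', hjy]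
        field_simp
        ring
      rw [e, map_mul, map_div₀, vj1, div_one]
      calc _ < Valued.v (algebraMap Ω (𝔓.adicCompletion Ω) α) * 1 :=
            mul_lt_mul_of_pos_left (lt_of_le_of_lt (Valuation.map_sub _ _ _)
              (max_lt vjε vε')) (zero_lt_iff.2 ((Valuation.ne_zero_iff _).2 hαE))
        _ = _ := mul_one _

end Run7.h875
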