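import Pool.Agent.Run7.h875.Up
import Pool.Agent.Run7.h875.Loc4
import Pool.Agent.N874.PM.Big4
import Pool.Agent.N862.PP.Exq

/-!
# The conditions over the extension, with all primes at which the cubic polynomial has no zero
-/

set_option autoImplicit false
set_option linter.all false

open Polynomial IsDedekindDomain WeierstrassCurve WeierstrassCurve.Affine
open Pool.Agent.TH115.GD
open Pool.Agent.N874.PP Pool.Agent.N874.PM
open scoped Classical IntermediateField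

namespace Run7.h875

/-- The cubic polynomial has no zero modulo the irreducible polynomial `P`. -/
def In {k : Type} [Field k] (a b P : k[X]) : Prop :=
  Irreducible P ∧ ∀ z : k[X], ¬ P ∣ z ^ 3 + a * z + b

section cnd

variable {k Ω : Type} [Field k] [Field Ω] [Algebra k[X] Ω] (O' : Type)
  [CommRing O'] [IsDedekindDomain O'] [Algebra O' Ω] [IsFractionRing O' Ω] [Algebra k[X] O']
  [IsScalarTower k[X] O' Ω]

/-- The conditions. -/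
structure Cnd3 (J : Finset k[X]) (I : k[X] → Prop) (θ x : Ω) : Prop where
  ev : ∀ 𝔓 : HeightOneSpectrum O', (∀ P : k[X], I P → ¬ Ov P 𝔓) → (∀ Q ∈ J, ¬ Ov Q 𝔓) → Ev 𝔓 x
  u0 : ∀ Q ∈ J, ∀ 𝔓 : HeightOneSpectrum O', Ov Q 𝔓 → 𝔓.valuation Ω θ = 1 →
    U0 𝔓 (algebraMap k[X] Ω Q * θ) x

variable {O'} {J : Finset k[X]} {I : k[X] → Prop} {θ : Ω}

theorem cnd3_sq {x : Ω} (hx : x ≠ 0) : Cnd3 O' J I θ (x ^ 2) where
  ev 𝔓 _ _ := ev_sq 𝔓 x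
  u0 Q _ 𝔓 _ _ := by
    refine ⟨fun _ => ⟨x, ?_⟩, fun h => absurd (ev_sq 𝔓 x) h⟩
    rw [sub_self, map_zero, zero_lt_iff]
    exact (Valuation.ne_zero_iff _).2 (pow_ne_zero _ hx)

theorem cnd3_mul [Finite k] [Algebra.IsIntegral k[X] O'] [Module.Finite k[X] O'] (hCLS : S_CLS)
    (h2 : (2 : k) ≠ 0) (hJ : ∀ Q ∈ J, Irreducible Q)
    (hϖ : ∀ Q ∈ J, ∀ 𝔓 : HeightOneSpectrum O', Ov Q 𝔓 → 𝔓.valuation Ω θ = 1 →
      ¬ Ev 𝔓 (algebraMap k[X] Ω Q * θ)) {x y : Ω} (hx : x ≠ 0) (hy : y ≠ 0)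
    (h : Cnd3 O' J I θ x) (h' : Cnd3 O' J I θ y) : Cnd3 O' J I θ (x * y) where
  ev 𝔓 h1 h2 := ev_mul (h.ev 𝔓 h1 h2) (h'.ev 𝔓 h1 h2)
  u0 Q hQ 𝔓 h1 h3 := by
    have h4 := hϖ Q hQ 𝔓 h1 h3
    have h5 : algebraMap k[X] Ω Q * θ ≠ 0 := by
      intro h0
      apply h4
      rw [h0]
      exact ⟨0, by simp⟩
    exact ((hCLS k Ω O' Q 𝔓 _ h2 (hJ Q hQ) h1 h5 h4 x y hx hy).2).2
      ⟨fun _ => h'.u0 Q hQ 𝔓 h1 h3, fun _ => h.u0 Q hQ 𝔓 h1 h3⟩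

theorem cnd3_sig [IsIntegralClosure O' k[X] Ω] (hSIG : S_SIG) {L : Type} [Field L] [Algebra L Ω]
    [Algebra k[X] L] [IsScalarTower k[X] L Ω] {θ₀ : L} (hθ : θ = algebraMap L Ω θ₀)
    (σ : Ω ≃ₐ[L] Ω) {x : Ω} (h : Cnd3 O' J I θ x) : Cnd3 O' J I θ (σ x) := by
  have hf : ∀ y : L, σ (algebraMap L Ω y) = algebraMap L Ω y := fun y => σ.commutes y
  have hp : ∀ P : k[X], σ (algebraMap k[X] Ω P) = algebraMap k[X] Ω P := fun P => by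
    rw [IsScalarTower.algebraMap_apply k[X] L Ω, hf]
  have key := hSIG k Ω O' (σ.restrictScalars k[X])
  have hev : ∀ (𝔓 𝔓' : HeightOneSpectrum O'), (∀ y : Ω, 𝔓'.valuation Ω y = 𝔓.valuation Ω (σ y)) →
      ∀ y : Ω, Ev 𝔓' y ↔ Ev 𝔓 (σ y) := by
    intro 𝔓 𝔓' hv y
    constructor
    · rintro ⟨z, hz⟩
      exact ⟨σ z, by rw [← hv, ← hv, hz]⟩
    · rintro ⟨z, hz⟩
      refine ⟨σ.symm z, ?_⟩
      rw [hv, hv, σ.apply_symm_apply, hz]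
  have hsq : ∀ (𝔓 𝔓' : HeightOneSpectrum O'), (∀ y : Ω, 𝔓'.valuation Ω y = 𝔓.valuation Ω (σ y)) →
      ∀ y : Ω, Sq1 𝔓' y → Sq1 𝔓 (σ y) := by
    rintro 𝔓 𝔓' hv y ⟨z, hz⟩
    refine ⟨σ z, ?_⟩
    rw [hv, hv, map_sub, map_pow] at hz
    exact hz
  refine ⟨fun 𝔓 h1 h2 => ?_, fun Q hQ 𝔓 h1 h2 => ?_⟩
  · obtain ⟨𝔓', hv, hO⟩ := key 𝔓
    exact (hev 𝔓 𝔓' hv x).1 (h.ev 𝔓' (fun P hP hc => h1 P hP ((hO P).1 hc))
      (fun Q hQ hc => h2 Q hQ ((hO Q).1 hc)))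
  · obtain ⟨𝔓', hv, hO⟩ := key 𝔓
    have hv' : ∀ y : Ω, 𝔓'.valuation Ω y = 𝔓.valuation Ω (σ y) := hv
    have h3 := h.u0 Q hQ 𝔓' ((hO Q).2 h1) (by rw [hv', hθ, hf, ← hθ]; exact h2)
    refine ⟨fun h4 => hsq 𝔓 𝔓' hv' x (h3.1 ((hev 𝔓 𝔓' hv' x).2 h4)), fun h4 => ?_⟩
    have h5 := hsq 𝔓 𝔓' hv' _ (h3.2 fun h6 => h4 ((hev 𝔓 𝔓' hv' x).1 h6))
    rw [map_mul, map_mul, hp, hθ, hf, ← hθ] at h5
    exact h5

end cnd

section base

variable {k K L Ω : Type} (O O' : Type) [Field k] [Field K] [Field L] [Field Ω] [Algebra K L]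
  [Algebra L Ω] [Algebra k[X] L]
  [Algebra k[X] Ω] [IsScalarTower k[X] L Ω]
  [CommRing O] [IsDedekindDomain O] [Algebra O L] [IsFractionRing O L] [Algebra k[X] O]
  [IsScalarTower k[X] O L]
  [CommRing O'] [IsDedekindDomain O'] [Algebra O' Ω] [IsFractionRing O' Ω] [Algebra k[X] O']
  [IsScalarTower k[X] O' Ω]

theorem base3 {θ : L} {J : Finset k[X]} {I : k[X] → Prop}
    (hsel : ∀ α : L, α ≠ 0 → IsSquare (Algebra.norm K α) →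
      (∀ 𝔓 : HeightOneSpectrum O, (∀ Q ∈ J, ¬ Ov Q 𝔓) → Ev 𝔓 α) →
      (∀ Q ∈ J, ∀ 𝔓 : HeightOneSpectrum O, Ov Q 𝔓 → 𝔓.valuation L θ = 1 →
        U0 𝔓 (algebraMap k[X] L Q * θ) α) →
      (∀ Q ∈ J, ∀ 𝔓 : HeightOneSpectrum O, Ov Q 𝔓 → 𝔓.valuation L θ < 1 → Ev 𝔓 α) →
      IsSquare α)
    (hdn : ∀ 𝔓 : HeightOneSpectrum O, (∀ P : k[X], I P → ¬ Ov P 𝔓) →
      ∃ 𝔓' : HeightOneSpectrum O', ∀ x : L, 𝔓'.valuation Ω (algebraMap L Ω x) = 𝔓.valuation L x)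
    (hds : ∀ Q ∈ J, ∀ 𝔓 : HeightOneSpectrum O, Ov Q 𝔓 → 𝔓.valuation L θ = 1 →
      ∃ 𝔓' : HeightOneSpectrum O', (∀ x : L,
        𝔓'.valuation Ω (algebraMap L Ω x) = 𝔓.valuation L x) ∧
        ∀ s : Ω, s ≠ 0 → ∃ s₀ : L, 𝔓'.valuation Ω (s - algebraMap L Ω s₀) < 𝔓'.valuation Ω s)
    (hI : ∀ P : k[X], I P → ∀ x : L, x ≠ 0 → IsSquare (Algebra.norm K x) →
      ∀ 𝔓 : HeightOneSpectrum O, Ov P 𝔓 → Ev 𝔓 x)
    (hJ : ∀ Q ∈ J, ∀ x : L, x ≠ 0 → IsSquare (Algebra.norm K x) →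
      ∀ 𝔓 : HeightOneSpectrum O, Ov Q 𝔓 → 𝔓.valuation L θ < 1 → Ev 𝔓 x)
    {x : L} (hx : x ≠ 0) (hC : Cnd3 O' J I (algebraMap L Ω θ) (algebraMap L Ω x))
    (hN : IsSquare (Algebra.norm K x)) : IsSquare x := by
  refine hsel x hx hN (fun 𝔓 h𝔓 => ?_) (fun Q hQ 𝔓 h1 h2 => ?_) (fun Q hQ 𝔓 h1 h2 => ?_)
  · by_cases hP : ∃ P : k[X], I P ∧ Ov P 𝔓
    · obtain ⟨P, hPT, hP𝔓⟩ := hP
      exact hI P hPT x hx hN 𝔓 hP𝔓
    · obtain ⟨𝔓', hv⟩ := hdn 𝔓 fun P h1 h2 => hP ⟨P, h1, h2⟩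
      rw [← ev_down hv]
      exact hC.ev 𝔓' (fun P hPT h => hP ⟨P, hPT, (ov_down hv P).1 h⟩)
        (fun Q hQ h => h𝔓 Q hQ ((ov_down hv Q).1 h))
  · obtain ⟨𝔓', hv, hd⟩ := hds Q hQ 𝔓 h1 h2
    have hQ' : Ov Q 𝔓' := (ov_down hv Q).2 h1
    have h3 := hC.u0 Q hQ 𝔓' hQ' (by rw [hv]; exact h2)
    refine ⟨fun h4 => sq_down hv hd (h3.1 ((ev_down hv x).2 h4)), fun h4 => ?_⟩
    have h5 := h3.2 fun h6 => h4 ((ev_down hv x).1 h6)
    have e : algebraMap L Ω x * (algebraMap k[X] Ω Q * algebraMap L Ω θ) =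
        algebraMap L Ω (x * (algebraMap k[X] L Q * θ)) := by
      rw [map_mul, map_mul, ← IsScalarTower.algebraMap_apply k[X] L Ω]
    rw [e] at h5
    exact sq_down hv hd h5
  · exact hJ Q hQ x hx hN 𝔓 h1 h2

end base

section poly

variable {k K : Type} [Field k] [Field K] [Algebra k[X] K] [IsFractionRing k[X] K]

/-- `- a` is not a square at the prime `Q` of `K`. -/
theorem ns_K {a Q : k[X]} (hQ : Irreducible Q) (hns : ∀ z : k[X], ¬ Q ∣ z ^ 2 + a)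
    (v : HeightOneSpectrum k[X]) (hv : Ov Q v) (z : K) (hz : v.valuation K z ≤ 1) :
    ¬ v.valuation K (z ^ 2 + algebraMap k[X] K a) < 1 := by
  intro hlt
  obtain ⟨z₁, hz₁⟩ := poly_approx v hz
  have h3 : v.valuation K (algebraMap k[X] K (z₁ ^ 2 + a)) < 1 := by
    have e : algebraMap k[X] K (z₁ ^ 2 + a) = (z ^ 2 + algebraMap k[X] K a) -
        (z - algebraMap k[X] K z₁) * (z + algebraMap k[X] K z₁) := by
      rw [map_add, map_pow]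
      ring
    rw [e]
    refine lt_of_le_of_lt (Valuation.map_sub _ _ _) (max_lt hlt ?_)
    rw [map_mul]
    have h4 : v.valuation K (z + algebraMap k[X] K z₁) ≤ 1 :=
      (Valuation.map_add _ _ _).trans (max_le hz (v.valuation_le_one z₁))
    exact lt_of_le_of_lt (mul_le_mul' le_rfl h4) (by rwa [mul_one])
  rw [HeightOneSpectrum.valuation_lt_one_iff_mem] at h3
  exact hns z₁ ((Pool.Agent.N862.PP.ov_iff hQ hv _).1 h3)

end poly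

section unr

variable {k K M : Type} (R : Type) [Field k] [Finite k] [Field K] [Field M]
  [Algebra k[X] K] [IsFractionRing k[X] K]
  [Algebra K M] [Algebra k[X] M] [IsScalarTower k[X] K M]
  [CommRing R] [IsDedekindDomain R] [Algebra R M] [IsFractionRing R M] [Algebra k[X] R]
  [IsScalarTower k[X] R M] [IsIntegralClosure R k[X] M] [IsGalois K M] [FiniteDimensional K M]

/-- The valuation of an unramified prime. -/
theorem val_unr {P : k[X]} (hP : Irreducible P) (hU : Unr R P) (w : HeightOneSpectrum R)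
    (hw : Ov P w) (x : K) : w.valuation M (algebraMap K M x) = (pr hP).valuation K x := by
  haveI := pr_over hP hw
  obtain ⟨-, -, htf⟩ := inst_pack k[X] K M (B := R)
  exact val_eq_of_e_one (pr hP) w (e_one_of (pr hP) w (π := P) (by rw [mem_pr]) (hU w hw)) x

include K in
theorem val_unr_sqf {P : k[X]} (hP : Irreducible P) (hU : Unr R P) (w : HeightOneSpectrum R)
    (hw : Ov P w) {r : k[X]} (hr : Squarefree r) :
    WithZero.exp (-1 : ℤ) ≤ w.valuation M (algebraMap k[X] M r) := by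
  rw [IsScalarTower.algebraMap_apply k[X] K M, val_unr R hP hU w hw]
  exact val_sqfree hr _

end unr

end Run7.h875
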