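import Pool.Agent.Run7.h875.Sel
import Pool.Agent.N874.PM.Final
import Pool.Agent.N862.PP.Par

/-!
# Counting
-/

set_option autoImplicit false
set_option linter.all false

open Polynomial IsDedekindDomain WeierstrassCurve WeierstrassCurve.Affine
open Pool.Agent.TH115.GD
open Pool.Agent.N874.PP Pool.Agent.N874.PM
open scoped Classical IntermediateField

namespace Run7.h875

/-- The conditions on the extension, in terms of the curve. -/
structure AdmP {k : Type} [Field k] (R : Type) [CommRing R] [IsDedekindDomain R] [Algebra k[X] R]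
    (p : k[X] × k[X]) : Prop where
  unr : ∀ P : k[X], Irreducible P → (∃ z : k[X], P ∣ z ^ 3 + p.1 * z + p.2) → Unr R P
  deg : ∀ Q : k[X], Irreducible Q → Q ∣ p.1 → Q ∣ p.2 → Deg2 R Q

/-- All the twists over all the extensions. -/
def GoodAll {k : Type} [Field k] (K : Type) [Field K] [Algebra k[X] K] (p : k[X] × k[X]) : Prop :=
  ∀ (M : Type) [Field M] [Algebra K M] [Algebra k[X] M] [IsScalarTower k[X] K M]
    [FiniteDimensional K M] [IsGalois K M] (R : Type)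
    [CommRing R] [IsDedekindDomain R] [Algebra R M] [IsFractionRing R M] [Algebra k[X] R]
    [IsScalarTower k[X] R M] [IsIntegralClosure R k[X] M] (n : ℕ),
    Module.finrank K M = 2 ^ n → AdmP R p → ∀ D : k[X], InD p.1 p.2 D →
      GoodM (M := M) R (p.1 * D ^ 2, p.2 * D ^ 3)

section basic

variable {k : Type} [Field k]

theorem in_twist {a b D P : k[X]} (h : In (a * D ^ 2) (b * D ^ 3) P) : In a b P := by
  refine ⟨h.1, fun z hz => h.2 (D * z) ?_⟩
  have e : (D * z) ^ 3 + a * D ^ 2 * (D * z) + b * D ^ 3 = D ^ 3 * (z ^ 3 + a * z + b) := by ring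
  rw [e]
  exact Dvd.dvd.mul_left hz _

theorem adm_of {R : Type} [CommRing R] [IsDedekindDomain R] [Algebra k[X] R] {J : Finset k[X]}
    {a b : k[X]} (hJ : ∀ Q ∈ J, Irreducible Q)
    (h : AdmP R (a * (∏ Q ∈ J, Q) ^ 2, b * (∏ Q ∈ J, Q) ^ 3)) : Adm R J a b := by
  refine ⟨fun P hP ⟨z, hz⟩ => h.unr P hP ⟨(∏ Q ∈ J, Q) * z, ?_⟩, fun Q hQ => h.deg Q (hJ Q hQ) ?_ ?_⟩
  · have e : ((∏ Q ∈ J, Q) * z) ^ 3 + a * (∏ Q ∈ J, Q) ^ 2 * ((∏ Q ∈ J, Q) * z) +
        b * (∏ Q ∈ J, Q) ^ 3 = (∏ Q ∈ J, Q) ^ 3 * (z ^ 3 + a * z + b) := by ring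
    show P ∣ ((∏ Q ∈ J, Q) * z) ^ 3 + a * (∏ Q ∈ J, Q) ^ 2 * ((∏ Q ∈ J, Q) * z) +
        b * (∏ Q ∈ J, Q) ^ 3
    rw [e]
    exact Dvd.dvd.mul_left hz _
  · exact Dvd.dvd.mul_left (dvd_pow (Finset.dvd_prod_of_mem _ hQ) two_ne_zero) _
  · exact Dvd.dvd.mul_left (dvd_pow (Finset.dvd_prod_of_mem _ hQ) three_ne_zero) _

end basic

section mzero

variable {k K M : Type} (R : Type) [Field k] [Finite k] [Field K] [Field M]
  [Algebra k[X] K] [IsFractionRing k[X] K]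
  [Algebra K M] [Algebra k[X] M] [IsScalarTower k[X] K M]
  [CommRing R] [IsDedekindDomain R] [Algebra R M] [IsFractionRing R M] [Algebra k[X] R]
  [IsScalarTower k[X] R M] [IsIntegralClosure R k[X] M]

include K M in
/-- Primes which do not divide `δ` are unramified. -/
theorem unr_of_delta (hUR : S_UR) {γ : M} {g : k[X][X]} {δ P : k[X]} (hG : Gen K γ g δ)
    (hP : Irreducible P) (hPδ : ¬ P ∣ δ) : Unr R P := by
  intro w hw hsq
  have hδ : ¬ Ov δ w := fun h => hPδ ((Pool.Agent.N862.PP.ov_iff hP hw δ).1 h)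
  obtain ⟨v, hv⟩ := (hUR k K M k[X] R γ g δ hG).1 w hδ
  have h1 : w.valuation M (algebraMap R M (algebraMap k[X] R P)) ≤
      WithZero.exp (-((2 : ℕ) : ℤ)) := by
    rw [HeightOneSpectrum.valuation_of_algebraMap, HeightOneSpectrum.intValuation_le_pow_iff_mem]
    exact hsq
  rw [← IsScalarTower.algebraMap_apply k[X] R M, IsScalarTower.algebraMap_apply k[X] K M, hv] at h1
  have h2 := (val_sqfree (K := K) hP.squarefree v).trans h1
  rw [WithZero.exp_le_exp] at h2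
  norm_num at h2

include K M in
/-- Split primes have degree one. -/
theorem deg_of_split (hUR : S_UR) (hSPD : S_SPD) {γ : M} {g : k[X][X]} {δ Q : k[X]}
    (hG : Gen K γ g δ) (hQ : Irreducible Q) (hQδ : ¬ Q ∣ δ) (hsp : SplitMod Q g) : Deg2 R Q := by
  intro w hw
  have hδ : ¬ Ov δ w := fun h => hQδ ((Pool.Agent.N862.PP.ov_iff hQ hw δ).1 h)
  obtain ⟨v, hv⟩ := (hUR k K M k[X] R γ g δ hG).1 w hδ
  haveI : Finite (k[X] ⧸ Ideal.span {Q}) := pr_fin hQ
  haveI := (pr hQ).isMaximal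
  have hle : (Ideal.span {Q} : Ideal k[X]) ≤ w.asIdeal.comap (algebraMap k[X] R) := by
    rw [Ideal.span_singleton_le_iff_mem]
    exact hw
  have hsurj : Function.Surjective (Ideal.quotientMap w.asIdeal (algebraMap k[X] R) hle) := by
    intro y
    obtain ⟨y, rfl⟩ := Ideal.Quotient.mk_surjective y
    -- a polynomial close to `y`
    obtain ⟨z₀, hz₀⟩ : ∃ z₀ : K, w.valuation M (algebraMap R M y - algebraMap K M z₀) < 1 := by
      by_cases h0 : algebraMap R M y = 0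
      · exact ⟨0, by rw [h0, map_zero, sub_zero, map_zero]; exact zero_lt_one⟩
      · obtain ⟨z₀, h⟩ := hSPD k K M R γ g δ hG Q hQ hsp w hw hδ _ h0
        exact ⟨z₀, lt_of_lt_of_le h (w.valuation_le_one y)⟩
    have hz0 : v.valuation K z₀ ≤ 1 := by
      rw [← hv]
      have e : algebraMap K M z₀ = algebraMap R M y - (algebraMap R M y - algebraMap K M z₀) := by
        ring
      rw [e]
      exact (Valuation.map_sub _ _ _).trans (max_le (w.valuation_le_one y) hz₀.le)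
    obtain ⟨z₁, hz₁⟩ := poly_approx v hz0
    refine ⟨Ideal.Quotient.mk _ z₁, ?_⟩
    rw [Ideal.quotientMap_mk, eq_comm, Ideal.Quotient.eq,
      ← HeightOneSpectrum.valuation_lt_one_iff_mem (K := M)]
    have e : algebraMap R M (y - algebraMap k[X] R z₁) = (algebraMap R M y - algebraMap K M z₀) +
        algebraMap K M (z₀ - algebraMap k[X] K z₁) := by
      rw [map_sub, map_sub, ← IsScalarTower.algebraMap_apply k[X] R M,
        ← IsScalarTower.algebraMap_apply k[X] K M]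
      ring
    change w.valuation M (algebraMap R M (y - algebraMap k[X] R z₁)) < 1
    rw [e]
    refine lt_of_le_of_lt (Valuation.map_add _ _ _) (max_lt hz₀ ?_)
    rw [hv]
    exact hz₁
  have h1 := Nat.card_le_card_of_surjective _ hsurj
  have h2 : 0 < Nat.card (k[X] ⧸ Ideal.span {Q}) := Nat.card_pos
  calc _ ≤ Nat.card (k[X] ⧸ Ideal.span {Q}) := h1
    _ = Nat.card (k[X] ⧸ Ideal.span {Q}) ^ 1 := (pow_one _).symm
    _ ≤ _ := Nat.pow_le_pow_right h2 (by norm_num)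

end mzero

/-- Irreducible polynomials are associated to monic ones. -/
theorem exists_monic {k : Type} [Field k] {P : k[X]} (hP : Irreducible P) :
    ∃ P' : k[X], P'.Monic ∧ Irreducible P' ∧ Associated P P' := by
  refine ⟨normalize P, monic_normalize hP.ne_zero, ?_, (normalize_associated P).symm⟩
  exact (normalize_associated P).symm.irreducible hP

theorem unr_assoc {k : Type} [Field k] {R : Type} [CommRing R] [IsDedekindDomain R]
    [Algebra k[X] R] {P P' : k[X]} (h : Associated P P') (hU : Unr R P') : Unr R P := by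
  obtain ⟨u, rfl⟩ := h
  intro w hw hs
  have e : algebraMap k[X] R (P * u) = algebraMap k[X] R P * algebraMap k[X] R u := map_mul _ _ _
  refine hU w ?_ ?_
  · unfold Ov at hw ⊢
    rw [e]
    exact Ideal.mul_mem_right _ _ hw
  · rw [e]
    exact Ideal.mul_mem_right _ _ hs

theorem deg_assoc {k : Type} [Field k] {R : Type} [CommRing R] [IsDedekindDomain R]
    [Algebra k[X] R] {P P' : k[X]} (h : Associated P P') (hD : Deg2 R P') : Deg2 R P := by
  intro w hw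
  have e : (Ideal.span {P} : Ideal k[X]) = Ideal.span {P'} :=
    Ideal.span_singleton_eq_span_singleton.2 h
  rw [e]
  refine hD w ?_
  obtain ⟨u, rfl⟩ := h
  unfold Ov at hw ⊢
  rw [map_mul]
  exact Ideal.mul_mem_right _ _ hw

/-- The extension `M₀` satisfies the conditions. -/
theorem adm_zero (hUR : S_UR) (hSPD : S_SPD) {k : Type} [Field k] [Finite k] (K M : Type)
    [Field K] [Field M] [Algebra k[X] K] [IsFractionRing k[X] K]
    [Algebra K M] [Algebra k[X] M] [IsScalarTower k[X] K M] (R : Type)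
    [CommRing R] [IsDedekindDomain R] [Algebra R M] [IsFractionRing R M] [Algebra k[X] R]
    [IsScalarTower k[X] R M] [IsIntegralClosure R k[X] M] {a b : k[X]} {N : ℕ} {a₀ b₀ : k}
    {S J T : Finset k[X]} {s A B : k[X] → k[X]} (h6 : (6 : k) ≠ 0) (hS : GoodS S s)
    (hF : FamT N a₀ b₀ S s T A B a b) (hT : GoodT T A B) (hJ : J ⊆ S)
    {γ : M} {g : k[X][X]} {δ : k[X]} (hG : Gen K γ g δ) (hsp : ∀ Q ∈ S, SplitMod Q g)
    (hδ : ∀ P : k[X], P.Monic → Irreducible P → P ∣ δ → P ∈ T) (hdis : Disjoint S T) :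
    AdmP R (a * (∏ Q ∈ J, Q) ^ 2, b * (∏ Q ∈ J, Q) ^ 3) := by
  constructor
  · rintro P hP ⟨z, hz⟩
    obtain ⟨P', hP'm, hP', has⟩ := exists_monic hP
    refine unr_assoc has (unr_of_delta (K := K) (M := M) R hUR hG hP' fun hd => ?_)
    have hPT := hδ P' hP'm hP' hd
    have hz' : P' ∣ z ^ 3 + a * (∏ Q ∈ J, Q) ^ 2 * z + b * (∏ Q ∈ J, Q) ^ 3 :=
      (has.symm.dvd).trans hz
    have hnd : ¬ P' ∣ ∏ Q ∈ J, Q := by
      intro h
      obtain ⟨Q, hQ, hPQ⟩ := (hP'.prime.dvd_finset_prod_iff _).1 h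
      have hQS := hS Q (hJ hQ)
      have : P' = Q := eq_of_monic_of_associated hP'm hQS.1 (hP'.associated_of_dvd hQS.2.1 hPQ)
      exact Finset.disjoint_left.1 hdis (hJ hQ) (this ▸ hPT)
    obtain ⟨u, e, hue⟩ := (hP'.coprime_iff_not_dvd).2 hnd
    apply (hT P' hPT).2.2 (e * z)
    have h1 := hF.ta P' hPT
    have h2 := hF.tb P' hPT
    obtain ⟨c1, hc1⟩ := h1
    obtain ⟨c2, hc2⟩ := h2
    obtain ⟨c3, hc3⟩ := hz'
    have hA : A P' = a - P' * c1 := by rw [← hc1]; ring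
    have hB : B P' = b - P' * c2 := by rw [← hc2]; ring
    rw [hA, hB]
    set DJ := ∏ Q ∈ J, Q with hDJ
    have he : e * DJ = 1 - u * P' := by rw [← hue]; ring
    have e1 : a * (e * z) - a * (e * DJ) ^ 2 * (e * z) =
        P' * (a * (e * z) * (2 * u - u ^ 2 * P')) := by
      rw [he]; ring
    have e2 : b - b * (e * DJ) ^ 3 = P' * (b * (3 * u - 3 * u ^ 2 * P' + u ^ 3 * P' ^ 2)) := by
      rw [he]; ring
    refine ⟨e ^ 3 * c3 + a * (e * z) * (2 * u - u ^ 2 * P') +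
      b * (3 * u - 3 * u ^ 2 * P' + u ^ 3 * P' ^ 2) - c1 * (e * z) - c2, ?_⟩
    linear_combination e ^ 3 * hc3 + e1 + e2
  · rintro Q hQ h1 h2
    have hQD : Q ∣ ∏ Q ∈ J, Q := by
      by_contra hnd
      have hq := hQ.prime
      have h1' : Q ∣ a := (hq.dvd_or_dvd h1).resolve_right fun h => hnd (hq.dvd_of_dvd_pow h)
      have h2' : Q ∣ b := (hq.dvd_or_dvd h2).resolve_right fun h => hnd (hq.dvd_of_dvd_pow h)
      obtain ⟨c, hc⟩ := h1'
      obtain ⟨d, hd⟩ := h2'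
      apply hQ.not_isUnit
      apply hF.fam.sq Q
      refine ⟨4 * Q * c ^ 3 + 27 * d ^ 2, ?_⟩
      unfold dsc
      rw [hc, hd]
      ring
    obtain ⟨Q', hQ', hQQ⟩ := (hQ.prime.dvd_finset_prod_iff _).1 hQD
    have hQS := hS Q' (hJ hQ')
    refine deg_assoc (hQ.associated_of_dvd hQS.2.1 hQQ) (deg_of_split (K := K) (M := M) R hUR hSPD
      hG hQS.2.1 (fun hd => ?_) (hsp Q' (hJ hQ')))
    exact Finset.disjoint_left.1 hdis (hJ hQ') (hδ Q' hQS.1 hQS.2.1 hd)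

theorem good_of_sel (hGFR : S_GFR) (hFINM : S_FINM) {k : Type} [Field k] [Finite k]
    (h6 : (6 : k) ≠ 0) (K M : Type) [Field K]
    [Algebra k[X] K] [IsFractionRing k[X] K] [Field M] [Algebra K M] [Algebra k[X] M]
    [IsScalarTower k[X] K M] [FiniteDimensional K M] [IsGalois K M] (R : Type)
    [CommRing R] [IsDedekindDomain R] [Algebra R M] [IsFractionRing R M] {A B : k[X]}
    (hd : 4 * A ^ 3 + 27 * B ^ 2 ≠ 0)
    (hsel : SelR R (sW (algebraMap k[X] M A) (algebraMap k[X] M B))) :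
    GoodM (M := M) R (A, B) := by
  have inj : Function.Injective (algebraMap k[X] M) := by
    rw [IsScalarTower.algebraMap_eq k[X] K M]
    exact (algebraMap K M).injective.comp (IsFractionRing.injective k[X] K)
  have h6M : (6 : M) ≠ 0 := by
    have e : algebraMap k[X] M (C (6 : k)) = 6 := by
      rw [show (C (6 : k) : k[X]) = 6 from rfl, map_ofNat]
    rw [← e, Ne, map_eq_zero_iff _ inj, C_eq_zero]
    exact h6
  have hdM : 4 * (algebraMap k[X] M A) ^ 3 + 27 * (algebraMap k[X] M B) ^ 2 ≠ 0 := by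
    intro h0
    apply hd
    rw [← map_eq_zero_iff _ inj]
    simpa only [map_add, map_mul, map_pow, map_ofNat] using h0
  have hdK : 4 * (algebraMap k[X] K A) ^ 3 + 27 * (algebraMap k[X] K B) ^ 2 ≠ 0 := by
    intro h0
    apply hd
    rw [← map_eq_zero_iff _ (IsFractionRing.injective k[X] K)]
    simpa only [map_add, map_mul, map_pow, map_ofNat] using h0
  obtain ⟨h2, h3⟩ := hGFR M R _ _ h6M hdM hsel
  refine ⟨h2, ?_, h3⟩
  have h4 := hFINM k K M (algebraMap k[X] K A) (algebraMap k[X] K B) h6 hdK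
  rw [← IsScalarTower.algebraMap_apply k[X] K M,
    ← IsScalarTower.algebraMap_apply k[X] K M] at h4
  exact h4 h2

/-- The main theorem. -/
theorem main3 (H : Parts) (hPQ : S_PARQ) (hIRK : S_IRK) (hFAMT : S_FAMT) (hBAD : S_BAD)
    (hIRR : S_IRR) (hTCH : S_TCH) (hGEN : S_GEN) (hSPL : S_SPL) (hGFR : S_GFR) (hFINM : S_FINM)
    (k : Type) [Field k] [Finite k] (h6 : (6 : k) ≠ 0) (K M : Type) [Field K]
    [Algebra k[X] K] [IsFractionRing k[X] K] [Field M] [Algebra K M] [Algebra k[X] M]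
    [IsScalarTower k[X] K M] [FiniteDimensional K M] [IsGalois K M] (R : Type) [CommRing R]
    [IsDedekindDomain R] [Algebra R M] [IsFractionRing R M] [Algebra k[X] R]
    [IsScalarTower k[X] R M] [IsIntegralClosure R k[X] M] :
    ∃ c : ℝ, 0 < c ∧ ∃ N₀ : ℕ, ∀ N ≥ N₀, c * (Nat.card k : ℝ) ^ (10 * N) ≤
        ({p : k[X] × k[X] | Crv N p.1 p.2 ∧ AdmP R p ∧ GoodAll K p}.ncard : ℝ) := by
  obtain ⟨a₀, b₀, hirr⟩ := hIRR k h6
  obtain ⟨γ, g, δ, hG, hdeg⟩ := hGEN k K M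
  -- the prime divisors of `δ`
  obtain ⟨T, hT', hδ⟩ : ∃ T : Finset k[X], (∀ P ∈ T, P.Monic ∧ Irreducible P) ∧
      ∀ P : k[X], P.Monic → Irreducible P → P ∣ δ → P ∈ T := by
    have hf : {P : k[X] | P.Monic ∧ Irreducible P ∧ P ∣ δ}.Finite := by
      refine (Pool.Agent.N530.PP.fin_nd δ.natDegree).subset ?_
      rintro P ⟨-, -, h⟩
      exact natDegree_le_of_dvd h hG.ne
    refine ⟨hf.toFinset, fun P hP => ?_, fun P h1 h2 h3 => ?_⟩
    · have := hf.mem_toFinset.1 hP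
      exact ⟨this.1, this.2.1⟩
    · exact hf.mem_toFinset.2 ⟨h1, h2, h3⟩
  obtain ⟨A, B, hT⟩ := hTCH k h6 T hT'
  obtain ⟨S, s, c, hS, hdis, hsp, hc, N₀, hN₀⟩ := good_cardT hFAMT hBAD h6 hirr hT
    (fun Q => SplitMod Q g) (hSPL k K M γ g δ h6 hG hdeg T)
  set e : ℕ := (∏ Q ∈ S, Q).natDegree with he
  have hq : (0 : ℝ) < Nat.card k := by exact_mod_cast Nat.card_pos
  refine ⟨c / (2 ^ S.card * (Nat.card k : ℝ) ^ (10 * e)), by positivity, N₀ + 1 + e,
    fun M' hM' => ?_⟩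
  obtain ⟨N, rfl⟩ : ∃ N, M' = N + e := ⟨M' - e, by omega⟩
  have hN := hN₀ N (by omega)
  set Hs := {p : k[X] × k[X] | Crv (N + e) p.1 p.2 ∧ AdmP R p ∧ GoodAll K p} with hH
  set G := {p : k[X] × k[X] | FamT N a₀ b₀ S s T A B p.1 p.2 ∧ ¬ LBad N S s p.1 p.2} with hG'
  have hHf : Hs.Finite := (crv_fin (N + e)).subset fun p hp => hp.1
  have hGf : G.Finite := (fin_box (4 * N) (6 * N)).subset fun p hp => ⟨hp.1.fam.da, hp.1.fam.db⟩
  have hcard := card_fib hGf hHf S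
    (fun J p => (p.1 * (∏ Q ∈ J, Q) ^ 2, p.2 * (∏ Q ∈ J, Q) ^ 3)) (by
      intro p hp
      obtain ⟨J, hJ, hsel⟩ := selR3 H hPQ hIRK K h6 hirr hS hp.1.fam hp.2
      refine ⟨J, hJ, ?_⟩
      have hcrv := fam_crv h6 (by omega) hirr hS hp.1.fam hJ (le_refl (N + e))
      refine ⟨hcrv, adm_zero H.ur H.spd K M R h6 hS hp.1 hT hJ hG hsp hδ hdis, ?_⟩
      intro M' _ _ _ _ _ _ R' _ _ _ _ _ _ _ n hM'' hA D hD
      have hD' : InD p.1 p.2 D := ⟨hD.1, fun P hP hPD => in_twist (hD.2 P hP hPD)⟩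
      have h1 := hsel M' R' n hM'' (adm_of (fun Q hQ => (hS Q (hJ hQ)).2.1) hA) D hD'
      have e1 : p.1 * (∏ Q ∈ J, Q) ^ 2 * D ^ 2 = p.1 * ((∏ Q ∈ J, Q) * D) ^ 2 := by ring
      have e2 : p.2 * (∏ Q ∈ J, Q) ^ 3 * D ^ 3 = p.2 * ((∏ Q ∈ J, Q) * D) ^ 3 := by ring
      show GoodM (M := M') R' (p.1 * (∏ Q ∈ J, Q) ^ 2 * D ^ 2, p.2 * (∏ Q ∈ J, Q) ^ 3 * D ^ 3)
      rw [e1, e2]
      refine good_of_sel hGFR hFINM h6 K M' R' ?_ h1
      have e3 : 4 * (p.1 * ((∏ Q ∈ J, Q) * D) ^ 2) ^ 3 + 27 * (p.2 * ((∏ Q ∈ J, Q) * D) ^ 3) ^ 2 =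
          D ^ 6 * (4 * (p.1 * (∏ Q ∈ J, Q) ^ 2) ^ 3 + 27 * (p.2 * (∏ Q ∈ J, Q) ^ 3) ^ 2) := by
        ring
      rw [e3]
      exact mul_ne_zero (pow_ne_zero _ hD.1) hcrv.disc) (by
      intro J hJ x hx y hy hxy
      have hD0 : (∏ Q ∈ J, Q) ≠ 0 := by
        rw [Finset.prod_ne_zero_iff]
        exact fun Q hQ => (hS Q (hJ hQ)).2.1.ne_zero
      rw [Prod.mk.injEq] at hxy
      exact twist_inj hD0 hxy.1 hxy.2)
  have hcard' : (G.ncard : ℝ) ≤ 2 ^ S.card * Hs.ncard := by exact_mod_cast hcard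
  calc c / (2 ^ S.card * (Nat.card k : ℝ) ^ (10 * e)) * (Nat.card k : ℝ) ^ (10 * (N + e))
      = c * (Nat.card k : ℝ) ^ (10 * N) / 2 ^ S.card := by
        rw [show 10 * (N + e) = 10 * N + 10 * e by ring, pow_add]
        field_simp
    _ ≤ (G.ncard : ℝ) / 2 ^ S.card := by gcongr
    _ ≤ (2 ^ S.card * Hs.ncard) / 2 ^ S.card := by gcongr
    _ = Hs.ncard := by field_simp

theorem final3 (k : Type) [Field k] [Finite k] (h6 : (6 : k) ≠ 0) (K M : Type) [Field K]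
    [Algebra k[X] K] [IsFractionRing k[X] K] [Field M] [Algebra K M] [Algebra k[X] M]
    [IsScalarTower k[X] K M] [FiniteDimensional K M] [IsGalois K M] (R : Type) [CommRing R]
    [IsDedekindDomain R] [Algebra R M] [IsFractionRing R M] [Algebra k[X] R]
    [IsScalarTower k[X] R M] [IsIntegralClosure R k[X] M] :
    ∃ c : ℝ, 0 < c ∧ ∃ N₀ : ℕ, ∀ N ≥ N₀, c * (Nat.card k : ℝ) ^ (10 * N) ≤
        ({p : k[X] × k[X] | Crv N p.1 p.2 ∧ AdmP R p ∧ GoodAll K p}.ncard : ℝ) :=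
  main3 Pool.Agent.N874.PM.parts (Pool.Agent.N862.PP.parq Pool.Agent.N833.PP.int)
    Pool.Agent.N999.PP.irk Pool.Agent.N87.PM.famt Pool.Agent.N874.PM.bad Pool.Agent.N498.PP.irr
    Pool.Agent.N803.PM.tch Pool.Agent.N169.PM.gen Pool.Agent.N2.PM.spl Pool.Agent.N650.PM.gfr
    Pool.Agent.N803.PM.finm k h6 K M R

end Run7.h875
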