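import Pool.Agent.N874.PM.Big3

/-!
# Ramification, decomposition and inertia groups for Galois extensions of Dedekind domains
-/

set_option autoImplicit false
set_option linter.all false

open Polynomial IsDedekindDomain WithZero
open scoped Classical Pointwise

namespace Run7.h875

section gen

variable {A B : Type} (G : Type) [CommRing A] [IsDedekindDomain A] [CommRing B]
  [IsDedekindDomain B] [Algebra A B] [Module.Finite A B] [Module.IsTorsionFree A B]
  [Group G] [Finite G] [MulSemiringAction G B] [IsGaloisGroup G A B]
  (v : HeightOneSpectrum A) (w : HeightOneSpectrum B) [w.asIdeal.LiesOver v.asIdeal]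

theorem perfect_res [Finite (A ⧸ v.asIdeal)] : PerfectField v.asIdeal.ResidueField := by
  haveI := v.isMaximal
  haveI : Finite v.asIdeal.ResidueField :=
    Finite.of_surjective _ (Ideal.bijective_algebraMap_quotient_residueField v.asIdeal).2
  infer_instance

omit [Module.Finite A B] in
/-- The ramification index is one if a uniformizer is given. -/
theorem e_one_of {π : A} (hπ : π ∈ v.asIdeal) (h2 : algebraMap A B π ∉ w.asIdeal ^ 2) :
    w.asIdeal.ramificationIdx A = 1 := by
  haveI := v.isPrime
  haveI := w.isPrime
  rw [← Ideal.ramificationIdx'_eq_ramificationIdx v.asIdeal w.asIdeal v.ne_bot]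
  by_contra hne
  have hle : Ideal.map (algebraMap A B) v.asIdeal ≤ w.asIdeal := by
    rw [Ideal.map_le_iff_le_comap]
    exact (Ideal.over_def w.asIdeal v.asIdeal).le
  rw [← Ne, Ideal.ramificationIdx'_ne_one_iff hle] at hne
  exact h2 (hne (Ideal.mem_map_of_mem _ hπ))

variable [Finite (A ⧸ v.asIdeal)]

include v in
theorem card_inertia_eq : Nat.card (w.asIdeal.inertia G) = w.asIdeal.ramificationIdx A := by
  haveI := v.isPrime
  haveI := w.isPrime
  haveI := perfect_res v
  rw [Ideal.card_inertia_eq_ramificationIdxIn v.asIdeal w.asIdeal,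
    Ideal.ramificationIdxIn_eq_ramificationIdx v.asIdeal w.asIdeal G]

include v in
theorem card_stab_eq : Nat.card (MulAction.stabilizer G w.asIdeal) =
    w.asIdeal.ramificationIdx A * w.asIdeal.inertiaDeg A := by
  haveI := v.isPrime
  haveI := w.isPrime
  haveI := perfect_res v
  rw [Ideal.card_stabilizer_eq v.asIdeal w.asIdeal,
    Ideal.ramificationIdxIn_eq_ramificationIdx v.asIdeal w.asIdeal G,
    Ideal.inertiaDegIn_eq_inertiaDeg v.asIdeal w.asIdeal G]

omit [IsDedekindDomain A] [Finite (A ⧸ v.asIdeal)] [Module.Finite A B]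
  [Finite G] [IsGaloisGroup G A B] [w.asIdeal.LiesOver v.asIdeal] [Module.IsTorsionFree A B] in
theorem mem_inertia_iff (σ : G) : σ ∈ w.asIdeal.inertia G ↔ ∀ x : B, σ • x - x ∈ w.asIdeal := by
  rfl

end gen

section vals

variable {A K B L : Type} [CommRing A] [IsDedekindDomain A] [CommRing B] [IsDedekindDomain B]
  [Algebra A B] [Module.IsTorsionFree A B] [Field K] [Field L] [Algebra K L] [Algebra A K]
  [IsFractionRing A K] [Algebra A L] [IsScalarTower A K L] [Algebra B L] [IsFractionRing B L]
  [IsScalarTower A B L] (v : HeightOneSpectrum A) (w : HeightOneSpectrum B)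
  [w.asIdeal.LiesOver v.asIdeal]

/-- Equality of valuations if the ramification index is one. -/
theorem val_eq_of_e_one (he : w.asIdeal.ramificationIdx A = 1) (x : K) :
    w.valuation L (algebraMap K L x) = v.valuation K x := by
  haveI := w.isPrime
  rw [← HeightOneSpectrum.valuation_liesOver L v w x,
    Ideal.ramificationIdx'_eq_ramificationIdx v.asIdeal w.asIdeal v.ne_bot, he, pow_one]

end vals

end Run7.h875
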