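import Pool.Agent.Run7.h875.Ram

/-!
# Decomposition and inertia groups, in terms of the automorphisms of the fields
-/

set_option autoImplicit false
set_option linter.all false

open Polynomial IsDedekindDomain WithZero
open scoped Classical Pointwise

namespace Run7.h875

section gal

variable {A K B L : Type} [CommRing A] [IsDedekindDomain A] [CommRing B] [IsDedekindDomain B]
  [Algebra A B] [Field K] [Field L] [Algebra K L] [Algebra A K]
  [IsFractionRing A K] [Algebra A L] [IsScalarTower A K L] [Algebra B L] [IsFractionRing B L]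
  [IsScalarTower A B L] [IsIntegralClosure B A L] [FiniteDimensional K L] [IsGalois K L]
  (v : HeightOneSpectrum A) (w : HeightOneSpectrum B)
  [w.asIdeal.LiesOver v.asIdeal] [Finite (A ⧸ v.asIdeal)]

theorem act_apply (σ : L ≃ₐ[K] L) (x : B) :
    letI := IsIntegralClosure.MulSemiringAction A K L B
    algebraMap B L (σ • x) = σ (algebraMap B L x) :=
  algebraMap_galRestrict_apply A σ x

variable (A K L) in
theorem inst_pack : letI := IsIntegralClosure.MulSemiringAction A K L B
    IsGaloisGroup (L ≃ₐ[K] L) A B ∧ Module.Finite A B ∧ Module.IsTorsionFree A B := by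
  letI := IsIntegralClosure.MulSemiringAction A K L B
  haveI : Module.Finite A B := IsIntegralClosure.finite A K L B
  haveI : IsGaloisGroup (L ≃ₐ[K] L) A B := IsGaloisGroup.of_isFractionRing _ _ _ K L
  refine ⟨this, inferInstance, ?_⟩
  rw [Module.isTorsionFree_iff_faithfulSMul, faithfulSMul_iff_algebraMap_injective]
  have h1 : Function.Injective (algebraMap A L) := by
    rw [IsScalarTower.algebraMap_eq A K L]
    exact (algebraMap K L).injective.comp (IsFractionRing.injective A K)
  rw [IsScalarTower.algebraMap_eq A B L] at h1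
  exact Function.Injective.of_comp h1

include v in
/-- If the ramification index is one, then the inertia group is trivial. -/
theorem inertia_one (he : w.asIdeal.ramificationIdx A = 1) {σ : L ≃ₐ[K] L}
    (hσ : ∀ x : B, w.valuation L (σ (algebraMap B L x) - algebraMap B L x) < 1) : σ = 1 := by
  letI := IsIntegralClosure.MulSemiringAction A K L B
  obtain ⟨h1, h2, h3⟩ := inst_pack A K L (B := B)
  have hc := card_inertia_eq (L ≃ₐ[K] L) v w
  rw [he] at hc
  have hm : σ ∈ w.asIdeal.inertia (L ≃ₐ[K] L) := by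
    intro x
    have := hσ x
    rw [← act_apply (A := A), ← map_sub, HeightOneSpectrum.valuation_lt_one_iff_mem] at this
    exact this
  haveI := (Nat.card_eq_one_iff_unique.1 hc).1
  have := Subsingleton.elim (⟨σ, hm⟩ : w.asIdeal.inertia (L ≃ₐ[K] L)) 1
  exact congrArg Subtype.val this

include v in
/-- If the inertia group is trivial, then the ramification index is one. -/
theorem e_one_of_inertia (h : ∀ σ : L ≃ₐ[K] L,
    (∀ x : B, w.valuation L (σ (algebraMap B L x) - algebraMap B L x) < 1) → σ = 1) :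
    w.asIdeal.ramificationIdx A = 1 := by
  letI := IsIntegralClosure.MulSemiringAction A K L B
  obtain ⟨h1, h2, h3⟩ := inst_pack A K L (B := B)
  rw [← card_inertia_eq (L ≃ₐ[K] L) v w]
  have : w.asIdeal.inertia (L ≃ₐ[K] L) = ⊥ := by
    rw [Subgroup.eq_bot_iff_forall]
    intro σ hσ
    refine h σ fun x => ?_
    rw [← act_apply (A := A), ← map_sub, HeightOneSpectrum.valuation_lt_one_iff_mem]
    exact hσ x
  rw [this]
  simp

include v in
/-- If the decomposition group is trivial, then the ramification index and the degree are one. -/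
theorem ef_one_of_stab (h : ∀ σ : L ≃ₐ[K] L,
    (∀ x : B, w.valuation L (algebraMap B L x) < 1 →
      w.valuation L (σ (algebraMap B L x)) < 1) → σ = 1) :
    w.asIdeal.ramificationIdx A = 1 ∧ w.asIdeal.inertiaDeg A = 1 := by
  letI := IsIntegralClosure.MulSemiringAction A K L B
  obtain ⟨h1, h2, h3⟩ := inst_pack A K L (B := B)
  have hc := card_stab_eq (L ≃ₐ[K] L) v w
  have : MulAction.stabilizer (L ≃ₐ[K] L) w.asIdeal = ⊥ := by
    rw [Subgroup.eq_bot_iff_forall]
    intro σ hσ
    refine h σ fun x hx => ?_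
    rw [← act_apply (A := A), HeightOneSpectrum.valuation_lt_one_iff_mem]
    rw [HeightOneSpectrum.valuation_lt_one_iff_mem] at hx
    have h4 := Ideal.smul_mem_pointwise_smul σ x w.asIdeal hx
    rw [MulAction.mem_stabilizer_iff] at hσ
    rwa [hσ] at h4
  rw [this] at hc
  simp only [Subgroup.mem_bot, Nat.card_unique] at hc
  exact ⟨Nat.eq_one_of_mul_eq_one_right hc.symm, Nat.eq_one_of_mul_eq_one_left hc.symm⟩

include v in
/-- The elements of the decomposition group. -/
theorem stab_card_le (he : w.asIdeal.ramificationIdx A = 1)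
    {σ : L ≃ₐ[K] L} (hσ : ∀ x : B, w.valuation L (algebraMap B L x) < 1 →
      w.valuation L (σ (algebraMap B L x)) < 1) (hf : w.asIdeal.inertiaDeg A = 1) : σ = 1 := by
  letI := IsIntegralClosure.MulSemiringAction A K L B
  obtain ⟨h1, h2, h3⟩ := inst_pack A K L (B := B)
  have hc := card_stab_eq (L ≃ₐ[K] L) v w
  rw [he, hf, mul_one] at hc
  have hm : σ ∈ MulAction.stabilizer (L ≃ₐ[K] L) w.asIdeal := by
    rw [MulAction.mem_stabilizer_iff]
    haveI := w.isMaximal
    have hle : σ • w.asIdeal ≤ w.asIdeal := by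
      intro y hy
      rw [Ideal.mem_pointwise_smul_iff_inv_smul_mem] at hy
      have := hσ (σ⁻¹ • y) (by
        rw [HeightOneSpectrum.valuation_lt_one_iff_mem]
        exact hy)
      rw [← act_apply (A := A), HeightOneSpectrum.valuation_lt_one_iff_mem, smul_inv_smul] at this
      exact this
    haveI := w.isPrime
    have hpr : (σ • w.asIdeal).IsPrime := inferInstance
    have hne : σ • w.asIdeal ≠ ⊥ := by
      intro h0
      have := congrArg (fun I : Ideal B => σ⁻¹ • I) h0
      simp only [inv_smul_smul, Ideal.smul_bot] at this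
      exact w.ne_bot this
    exact (hpr.isMaximal hne).eq_of_le w.isPrime.ne_top hle
  haveI := (Nat.card_eq_one_iff_unique.1 hc).1
  have := Subsingleton.elim (⟨σ, hm⟩ : MulAction.stabilizer (L ≃ₐ[K] L) w.asIdeal) 1
  exact congrArg Subtype.val this

end gal

/-- Elements of a finite field with `q` elements are squares in the field with `q ^ 2` elements. -/
theorem sq_in_two {F E : Type} [Field F] [Field E] [Algebra F E] [Finite F] [Finite E]
    (hc : Nat.card E = Nat.card F ^ 2) (h2 : (2 : F) ≠ 0) (c : F) :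
    ∃ z : E, z ^ 2 = algebraMap F E c := by
  haveI := Fintype.ofFinite F
  haveI := Fintype.ofFinite E
  by_cases hc0 : c = 0
  · exact ⟨0, by rw [hc0, map_zero, zero_pow two_ne_zero]⟩
  have hch : ringChar E ≠ 2 := by
    intro h
    apply h2
    have h3 : ((2 : ℕ) : E) = 0 := by
      rw [← h]
      exact ringChar.Nat.cast_ringChar
    have h4 : algebraMap F E 2 = 0 := by
      rw [map_ofNat]
      exact_mod_cast h3
    rwa [map_eq_zero] at h4
  have hchF : ringChar F ≠ 2 := by
    intro h
    apply h2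
    have h3 : ((2 : ℕ) : F) = 0 := by
      rw [← h]
      exact ringChar.Nat.cast_ringChar
    exact_mod_cast h3
  have hodd : Fintype.card F % 2 = 1 := FiniteField.odd_card_of_char_ne_two hchF
  have hsq : IsSquare (algebraMap F E c) := by
    rw [FiniteField.isSquare_iff hch (by rwa [Ne, map_eq_zero])]
    rw [Nat.card_eq_fintype_card, Nat.card_eq_fintype_card] at hc
    rw [hc]
    obtain ⟨m, hm⟩ : ∃ m, Fintype.card F = 2 * m + 1 := ⟨Fintype.card F / 2, by omega⟩
    have e : Fintype.card F ^ 2 / 2 = (Fintype.card F - 1) * (m + 1) := by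
      rw [hm]
      have : (2 * m + 1) ^ 2 = 2 * ((2 * m + 1 - 1) * (m + 1)) + 1 := by
        rw [Nat.add_sub_cancel]
        ring
      omega
    rw [e, pow_mul, ← map_pow, FiniteField.pow_card_sub_one_eq_one c hc0, map_one, one_pow]
  obtain ⟨z, hz⟩ := hsq
  exact ⟨z, by rw [hz, sq]⟩

section two

theorem f_le_two {A B : Type} [CommRing A] [IsDedekindDomain A] [CommRing B] [IsDedekindDomain B]
    [Algebra A B] [Module.Finite A B] (v : HeightOneSpectrum A) (w : HeightOneSpectrum B)
    [w.asIdeal.LiesOver v.asIdeal] [Finite (A ⧸ v.asIdeal)]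
    (hcard : Nat.card (B ⧸ w.asIdeal) ≤ Nat.card (A ⧸ v.asIdeal) ^ 2) :
    (w.asIdeal.inertiaDeg A = 1 ∨ w.asIdeal.inertiaDeg A = 2) ∧
      Nat.card (B ⧸ w.asIdeal) = Nat.card (A ⧸ v.asIdeal) ^ w.asIdeal.inertiaDeg A := by
  haveI := v.isMaximal
  haveI := w.isMaximal
  have h5 : Nat.card (A ⧸ v.asIdeal) ^ w.asIdeal.inertiaDeg A = Nat.card (B ⧸ w.asIdeal) :=
    Ideal.cardQuot_pow_inertiaDeg v.asIdeal w.asIdeal
  have hpos := Ideal.inertiaDeg_pos w.asIdeal A
  have h6 : 1 < Nat.card (A ⧸ v.asIdeal) := Finite.one_lt_card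
  rw [← h5] at hcard
  have h7 := (Nat.pow_le_pow_iff_right h6).1 hcard
  exact ⟨by omega, h5.symm⟩

variable {A K B L : Type} [CommRing A] [IsDedekindDomain A] [CommRing B] [IsDedekindDomain B]
  [Algebra A B] [Field K] [Field L] [Algebra K L] [Algebra A K]
  [IsFractionRing A K] [Algebra A L] [IsScalarTower A K L] [Algebra B L] [IsFractionRing B L]
  [IsScalarTower A B L] [IsIntegralClosure B A L] [FiniteDimensional K L] [IsGalois K L]
  (v : HeightOneSpectrum A) (w : HeightOneSpectrum B)
  [w.asIdeal.LiesOver v.asIdeal] [Finite (A ⧸ v.asIdeal)]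

include v in
/-- If the prime is unramified, of degree at most two, then an element of the decomposition group which
fixes the square root of a non-square `c` is trivial. -/
theorem stab_two (he : w.asIdeal.ramificationIdx A = 1)
    (hcard : Nat.card (B ⧸ w.asIdeal) ≤ Nat.card (A ⧸ v.asIdeal) ^ 2)
    (h2 : (2 : A) ∉ v.asIdeal) {c : A} (hns : ∀ z : A, z ^ 2 - c ∉ v.asIdeal)
    {σ : L ≃ₐ[K] L} (hσ : ∀ x : B, w.valuation L (algebraMap B L x) < 1 →
      w.valuation L (σ (algebraMap B L x)) < 1)
    (hfix : ∀ z : B, z ^ 2 - algebraMap A B c ∈ w.asIdeal →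
      w.valuation L (σ (algebraMap B L z) - algebraMap B L z) < 1) : σ = 1 := by
  obtain ⟨h1, h2', h3⟩ := inst_pack A K L (B := B)
  obtain ⟨hf | hf, hq⟩ := f_le_two v w hcard
  · exact stab_card_le v w he hσ hf
  refine inertia_one v w he fun x => ?_
  haveI := v.isMaximal
  haveI := w.isMaximal
  letI : Field (A ⧸ v.asIdeal) := Ideal.Quotient.field _
  letI : Field (B ⧸ w.asIdeal) := Ideal.Quotient.field _
  rw [hf] at hq
  have hfr : Module.finrank (A ⧸ v.asIdeal) (B ⧸ w.asIdeal) = 2 := by
    rw [← Ideal.inertiaDeg_eq_of_isMaximal v.asIdeal w.asIdeal, hf]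
  haveI : Module.Finite (A ⧸ v.asIdeal) (B ⧸ w.asIdeal) :=
    Module.finite_of_finrank_pos (by rw [hfr]; norm_num)
  haveI : Finite (B ⧸ w.asIdeal) := Module.finite_of_finite (A ⧸ v.asIdeal)
  have hmap : ∀ y : A, algebraMap (A ⧸ v.asIdeal) (B ⧸ w.asIdeal)
      (Ideal.Quotient.mk v.asIdeal y) = Ideal.Quotient.mk w.asIdeal (algebraMap A B y) :=
    fun y => rfl
  obtain ⟨z', hz'⟩ := sq_in_two (F := A ⧸ v.asIdeal) (E := B ⧸ w.asIdeal) hq (by
    intro h
    apply h2
    rw [← Ideal.Quotient.eq_zero_iff_mem, map_ofNat]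
    exact h) (Ideal.Quotient.mk v.asIdeal c)
  obtain ⟨z, rfl⟩ := Ideal.Quotient.mk_surjective z'
  have hzc : z ^ 2 - algebraMap A B c ∈ w.asIdeal := by
    rw [← Ideal.Quotient.eq_zero_iff_mem, map_sub, map_pow, hz', hmap, sub_self]
  -- `1`, `z` generate the residue field
  have hli : LinearIndependent (A ⧸ v.asIdeal) ![(1 : B ⧸ w.asIdeal), Ideal.Quotient.mk w.asIdeal z]
      := by
    rw [LinearIndependent.pair_iff]
    intro s t hst
    by_cases ht : t = 0
    · refine ⟨?_, ht⟩
      rw [ht, zero_smul, add_zero, Algebra.smul_def, mul_one, map_eq_zero] at hst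
      exact hst
    · exfalso
      obtain ⟨r, hr⟩ := Ideal.Quotient.mk_surjective (-(s / t))
      apply hns r
      rw [← Ideal.Quotient.eq_zero_iff_mem, map_sub, map_pow, sub_eq_zero]
      apply (algebraMap (A ⧸ v.asIdeal) (B ⧸ w.asIdeal)).injective
      rw [← hz', map_pow, hr]
      congr 1
      rw [Algebra.smul_def, Algebra.smul_def, mul_one] at hst
      rw [map_neg, map_div₀]
      have ht' : algebraMap (A ⧸ v.asIdeal) (B ⧸ w.asIdeal) t ≠ 0 := by rwa [Ne, map_eq_zero]
      field_simp
      linear_combination -hst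
  have htop := hli.span_eq_top_of_card_eq_finrank (by rw [hfr]; rfl)
  have hx : Ideal.Quotient.mk w.asIdeal x ∈ Submodule.span (A ⧸ v.asIdeal)
      (Set.range ![(1 : B ⧸ w.asIdeal), Ideal.Quotient.mk w.asIdeal z]) := by
    rw [htop]
    trivial
  rw [Matrix.range_cons, Matrix.range_cons, Matrix.range_empty, Set.union_empty,
    Set.singleton_union, Submodule.mem_span_pair] at hx
  obtain ⟨s', t', hst⟩ := hx
  obtain ⟨s, rfl⟩ := Ideal.Quotient.mk_surjective s'
  obtain ⟨t, rfl⟩ := Ideal.Quotient.mk_surjective t'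
  rw [Algebra.smul_def, Algebra.smul_def, hmap, hmap, mul_one, ← map_mul, ← map_add,
    Ideal.Quotient.eq] at hst
  -- `x = s + t z + r`
  have e : ∀ y : A, σ (algebraMap B L (algebraMap A B y)) = algebraMap B L (algebraMap A B y) := by
    intro y
    rw [← IsScalarTower.algebraMap_apply A B L, IsScalarTower.algebraMap_apply A K L, σ.commutes]
  have hr1 : w.valuation L (algebraMap B L (algebraMap A B s + algebraMap A B t * z - x)) < 1 := by
    rw [HeightOneSpectrum.valuation_lt_one_iff_mem]
    exact hst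
  have hr2 := hσ _ hr1
  have e2 : σ (algebraMap B L x) - algebraMap B L x = algebraMap B L (algebraMap A B t) *
      (σ (algebraMap B L z) - algebraMap B L z) -
      (σ (algebraMap B L (algebraMap A B s + algebraMap A B t * z - x)) -
        algebraMap B L (algebraMap A B s + algebraMap A B t * z - x)) := by
    simp only [map_sub, map_add, map_mul, e]
    ring
  rw [e2]
  refine lt_of_le_of_lt (Valuation.map_sub _ _ _) (max_lt ?_
    (lt_of_le_of_lt (Valuation.map_sub _ _ _) (max_lt hr2 hr1)))
  rw [map_mul]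
  exact lt_of_le_of_lt (mul_le_mul' (w.valuation_le_one _) le_rfl) (by
    rw [one_mul]
    exact hfix z hzc)

include v in
/-- Density if the ramification index and the degree are one. -/
theorem dens_of (he : w.asIdeal.ramificationIdx A = 1) (hf : w.asIdeal.inertiaDeg A = 1)
    (s : L) (hs : s ≠ 0) :
    ∃ s₀ : K, w.valuation L (s - algebraMap K L s₀) < w.valuation L s := by
  obtain ⟨h1, h2', h3⟩ := inst_pack A K L (B := B)
  haveI := v.isMaximal
  haveI := w.isMaximal
  letI : Field (A ⧸ v.asIdeal) := Ideal.Quotient.field _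
  obtain ⟨ϖ, hϖ⟩ := v.valuation_surjective K (w.valuation L s)
  have hv := val_eq_of_e_one (K := K) (L := L) v w he ϖ
  have hs0 : w.valuation L s ≠ 0 := (Valuation.ne_zero_iff _).2 hs
  have hϖ0 : algebraMap K L ϖ ≠ 0 := by
    intro h
    rw [h, map_zero] at hv
    rw [← hv] at hϖ
    exact hs0 hϖ.symm
  have hq : w.valuation L (s / algebraMap K L ϖ) = 1 := by
    rw [map_div₀, hv, hϖ, div_self hs0]
  obtain ⟨r, hr⟩ := w.exists_valuation_sub_lt_of_integer (K := L) hq.le 1
  have hr : w.valuation L (algebraMap B L r - s / algebraMap K L ϖ) < 1 := by exact_mod_cast hr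
  have hfr : Module.finrank (A ⧸ v.asIdeal) (B ⧸ w.asIdeal) = 1 := by
    rw [← Ideal.inertiaDeg_eq_of_isMaximal v.asIdeal w.asIdeal, hf]
  obtain ⟨r', hr'⟩ : ∃ r' : A, algebraMap A B r' - r ∈ w.asIdeal := by
    have hb : Function.Surjective (algebraMap (A ⧸ v.asIdeal) (B ⧸ w.asIdeal)) :=
      (bijective_algebraMap_of_linearEquiv
        (LinearEquiv.ofFinrankEq (A ⧸ v.asIdeal) (B ⧸ w.asIdeal)
          (by rw [hfr, Module.finrank_self]))).2
    obtain ⟨y, hy⟩ := hb (Ideal.Quotient.mk w.asIdeal r)
    obtain ⟨r', rfl⟩ := Ideal.Quotient.mk_surjective y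
    refine ⟨r', ?_⟩
    rw [← Ideal.Quotient.eq]
    exact hy
  refine ⟨algebraMap A K r' * ϖ, ?_⟩
  have e : s - algebraMap K L (algebraMap A K r' * ϖ) = - (((algebraMap B L (algebraMap A B r' - r)) +
      (algebraMap B L r - s / algebraMap K L ϖ)) * algebraMap K L ϖ) := by
    rw [map_mul, ← IsScalarTower.algebraMap_apply A K L, map_sub,
      ← IsScalarTower.algebraMap_apply A B L]
    field_simp
    ring
  rw [e, Valuation.map_neg, map_mul, hv, hϖ]
  refine mul_lt_of_lt_one_left (zero_lt_iff.2 hs0) ?_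
  refine lt_of_le_of_lt (Valuation.map_add _ _ _) (max_lt ?_ hr)
  rw [HeightOneSpectrum.valuation_lt_one_iff_mem]
  exact hr'

end two

end Run7.h875
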