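import Pool.Agent.Run7.h875.Top
import Pool.Agent.N874.PM.Big5

/-!
# The 2-Selmer groups over all the extensions, of all the twists
-/

set_option autoImplicit false
set_option linter.all false

open Polynomial IsDedekindDomain WeierstrassCurve WeierstrassCurve.Affine
open Pool.Agent.TH115.GD
open Pool.Agent.N874.PP Pool.Agent.N874.PM
open scoped Classical IntermediateField

namespace Run7.h875

/-- The condition on `J` over `K`. -/
def SelJ {k K L : Type} (O : Type) [Field k] [Field K] [Field L] [Algebra K L] [Algebra k[X] L]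
    [CommRing O] [IsDedekindDomain O] [Algebra O L] [IsFractionRing O L] [Algebra k[X] O]
    (J : Finset k[X]) (θ : L) : Prop :=
  ∀ α : L, α ≠ 0 → IsSquare (Algebra.norm K α) →
      (∀ 𝔓 : HeightOneSpectrum O, (∀ Q ∈ J, ¬ Ov Q 𝔓) → Ev 𝔓 α) →
      (∀ Q ∈ J, ∀ 𝔓 : HeightOneSpectrum O, Ov Q 𝔓 → 𝔓.valuation L θ = 1 →
        U0 𝔓 (algebraMap k[X] L Q * θ) α) →
      (∀ Q ∈ J, ∀ 𝔓 : HeightOneSpectrum O, Ov Q 𝔓 → 𝔓.valuation L θ < 1 → Ev 𝔓 α) →
      IsSquare α

section abs

variable {k K L M Ω : Type} (O O' R : Type) [Field k] [Finite k] [Field K] [Field L] [Field M]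
  [Field Ω]
  [Algebra k[X] K] [IsFractionRing k[X] K]
  [Algebra K L] [Algebra k[X] L] [IsScalarTower k[X] K L]
  [Algebra K M] [Algebra k[X] M] [IsScalarTower k[X] K M]
  [Algebra L Ω] [Algebra M Ω] [Algebra K Ω] [IsScalarTower K L Ω] [IsScalarTower K M Ω]
  [Algebra k[X] Ω] [IsScalarTower k[X] L Ω] [IsScalarTower k[X] M Ω]
  [CommRing O] [IsDedekindDomain O] [Algebra O L] [IsFractionRing O L] [Algebra k[X] O]
  [IsScalarTower k[X] O L] [IsIntegralClosure O k[X] L] [Module.Finite k[X] O]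
  [CommRing O'] [IsDedekindDomain O'] [Algebra O' Ω] [IsFractionRing O' Ω] [Algebra k[X] O']
  [IsScalarTower k[X] O' Ω] [IsIntegralClosure O' k[X] Ω] [Module.Finite k[X] O']
  [CommRing R] [IsDedekindDomain R] [Algebra R M] [IsFractionRing R M] [Algebra k[X] R]
  [IsScalarTower k[X] R M] [IsIntegralClosure R k[X] M] [Module.Finite k[X] R] [IsGalois K M]
  [FiniteDimensional K M] [FiniteDimensional K Ω] [Algebra.IsSeparable K Ω]

include Ω O O' in
theorem selR3_abs (H : Parts) (hPQ : S_PARQ) {a b : k[X]} {θ : L} {N : ℕ} {a₀ b₀ : k}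
    {S J : Finset k[X]} {s : k[X] → k[X]} (h6 : (6 : k) ≠ 0) (hc : IsCub K a b θ)
    (hS : GoodS S s) (hF : Fam N a₀ b₀ S s a b) (hJ : J ⊆ S) (hsel : SelJ (K := K) O J θ)
    (hA : Adm R J a b) {D : k[X]} (hD : InD a b D)
    {n : ℕ} (hM : Module.finrank K M = 2 ^ n) (hΩ : Module.finrank M Ω = 3)
    (hirrM : ∀ D : k[X], D ≠ 0 → Irreducible (X ^ 3 + C (algebraMap k[X] M (a * D ^ 2)) * X +
      C (algebraMap k[X] M (b * D ^ 3)) : M[X])) :
    SelR R (sW (algebraMap k[X] M (a * ((∏ Q ∈ J, Q) * D) ^ 2))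
      (algebraMap k[X] M (b * ((∏ Q ∈ J, Q) * D) ^ 3))) := by
  haveI : Algebra.IsIntegral k[X] R := IsIntegralClosure.isIntegral_algebra k[X] M
  haveI : Algebra.IsIntegral k[X] O' := IsIntegralClosure.isIntegral_algebra k[X] Ω
  haveI : Algebra.IsIntegral k[X] O := IsIntegralClosure.isIntegral_algebra k[X] L
  haveI : FiniteDimensional L Ω := FiniteDimensional.right K L Ω
  have htop := Pool.Agent.N692.PMTOW.sup_top (K := K) (L := L) (M := M) (Ω := Ω) hM hc.rank hΩ
  haveI : Normal L Ω := Pool.Agent.N692.PMTOW.normal_of_top htop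
  haveI : Algebra.IsSeparable L Ω := Algebra.isSeparable_tower_top_of_isSeparable K L Ω
  haveI : IsGalois L Ω := {}
  have h2 : (2 : k) ≠ 0 := by
    intro h
    apply h6
    have : (6 : k) = 2 * 3 := by norm_num
    rw [this, h, zero_mul]
  have inj : Function.Injective (algebraMap k[X] M) := by
    rw [IsScalarTower.algebraMap_eq k[X] K M]
    exact (algebraMap K M).injective.comp (IsFractionRing.injective k[X] K)
  have cst : ∀ c : k, c ≠ 0 → ∀ (F : Type) [Field F] [Algebra k[X] F],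
      Function.Injective (algebraMap k[X] F) → algebraMap k[X] F (C c) ≠ 0 := by
    intro c hc F _ _ hF
    rw [Ne, map_eq_zero_iff _ hF, C_eq_zero]
    exact hc
  have h6M : (6 : M) ≠ 0 := by
    have h := cst 6 h6 M inj
    have e : algebraMap k[X] M (C (6 : k)) = 6 := by
      rw [show (C (6 : k) : k[X]) = 6 from rfl, map_ofNat]
    rwa [e] at h
  have h2K : (2 : K) ≠ 0 := by
    have h := cst 2 h2 K (IsFractionRing.injective k[X] K)
    have e : algebraMap k[X] K (C (2 : k)) = 2 := by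
      rw [show (C (2 : k) : k[X]) = 2 from rfl, map_ofNat]
    rwa [e] at h
  have hD0 : (∏ Q ∈ J, Q) * D ≠ 0 := by
    refine mul_ne_zero ?_ hD.1
    rw [Finset.prod_ne_zero_iff]
    exact fun Q hQ => (hS Q (hJ hQ)).2.1.ne_zero
  have hJU : ∀ Q ∈ J, Unr R Q := fun Q hQ => hA.unr Q (hS Q (hJ hQ)).2.1 ⟨0, by
    have := hF.rb Q (hJ hQ)
    simpa using this⟩
  intro f hf h2f hloc
  have hirrD := hirrM _ hD0
  have hdisc : 4 * (algebraMap k[X] M (a * ((∏ Q ∈ J, Q) * D) ^ 2)) ^ 3 +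
      27 * (algebraMap k[X] M (b * ((∏ Q ∈ J, Q) * D) ^ 3)) ^ 2 ≠ 0 := by
    have e : 4 * (algebraMap k[X] M (a * ((∏ Q ∈ J, Q) * D) ^ 2)) ^ 3 +
      27 * (algebraMap k[X] M (b * ((∏ Q ∈ J, Q) * D) ^ 3)) ^ 2 =
        algebraMap k[X] M (((∏ Q ∈ J, Q) * D) ^ 6 * dsc a b) := by
      simp only [dsc, map_mul, map_add, map_pow, map_ofNat]
      ring
    rw [e, Ne, map_eq_zero_iff _ inj]
    exact mul_ne_zero (pow_ne_zero _ hD0) hF.sq.ne_zero
  obtain ⟨β, hβ⟩ := H.gb M _ _ h6M hdisc hirrD f hf h2f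
  obtain ⟨h, hh, hn⟩ := H.gn M _ _ h6M hdisc hirrD f hf h2f β hβ
  have hRt : Rt (algebraMap k[X] M (a * ((∏ Q ∈ J, Q) * D) ^ 2))
      (algebraMap k[X] M (b * ((∏ Q ∈ J, Q) * D) ^ 3))
      (algebraMap k[X] Ω ((∏ Q ∈ J, Q) * D) * algebraMap L Ω θ) := by
    unfold Rt
    rw [← IsScalarTower.algebraMap_apply k[X] M Ω, ← IsScalarTower.algebraMap_apply k[X] M Ω]
    have h1 := congrArg (algebraMap L Ω) hc.root
    rw [map_zero, map_add, map_add, map_mul, map_pow, ← IsScalarTower.algebraMap_apply k[X] L Ω,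
      ← IsScalarTower.algebraMap_apply k[X] L Ω] at h1
    rw [map_mul _ a, map_mul _ b, map_pow, map_pow]
    linear_combination (algebraMap k[X] Ω ((∏ Q ∈ J, Q) * D)) ^ 3 * h1
  have hn2 := hn Ω _ hRt hΩ
  have hcnd := top3 O O' R H.exq H.loc1 h6 hc hS hF hJ hA hD htop (h := h)
    (fun w => H.glr M R _ _ h6M hdisc f hf h2f β h hβ hh w (val_two h6 w) (hloc w)) hn2.1
  have hsq := H.tow n K L M Ω h2K hM hc.rank hΩ
    (fun x => Cnd3 O' J (In a b) (algebraMap L Ω θ) x) (fun x hx => cnd3_sq hx)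
    (fun x y hx hy h h' => cnd3_mul H.cls h2 (fun Q hQ => (hS Q (hJ hQ)).2.1)
      (fun Q hQ 𝔓 h1 h2 => odd3 O O' R H.exq h6 hc hF.sq (hS Q (hJ hQ)).2.1
        (hF.rb Q (hJ hQ)) (fam_ns hS hF (hJ hQ)) (hJU Q hQ) htop 𝔓 h1 h2) hx hy h h')
    (fun σ x h => cnd3_sig H.sig rfl σ h)
    (fun x hx hC hN => base3 O O' hsel
      (fun 𝔓 h𝔓 => by
        obtain ⟨P, hP1, hP2, hP3⟩ := exists_below (k := k) 𝔓
        have hz : ∃ z : k[X], P ∣ z ^ 3 + a * z + b := by
          by_contra hcon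
          push Not at hcon
          exact h𝔓 P ⟨hP2, hcon⟩ hP3
        exact val_down (K := K) (L := L) (M := M) O O' R hP2 (hA.unr P hP2 hz) htop 𝔓 hP3)
      (fun Q hQ 𝔓 h1 h2' => dens_up (K := K) (L := L) (M := M) O O' R h2 (hS Q (hJ hQ)).2.1
        (hJU Q hQ) (hA.deg Q hQ) (fam_ns hS hF (hJ hQ)) (hF.rb Q (hJ hQ)) hc.root htop 𝔓 h1 h2')
      (fun P hP => H.p3 k K L O a b θ h6 hc hF.sq P hP.1 hP.2)
      (fun Q hQ => hPQ k K L O a b θ h6 hc hF.sq Q (hS Q (hJ hQ)).2.1 (hF.rb Q (hJ hQ))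
        (fam_ns hS hF (hJ hQ))) hx hC hN)
    _ hn2.1 hcnd hn2.2
  exact H.gt M _ _ h6M hdisc hirrD f hf h2f β h hβ hh _ _ hRt hΩ hsq

end abs

section mid

variable {k K L M Ω : Type} (O : Type) [Field k] [Finite k] [Field K] [Field L] [Field M]
  [Field Ω]
  [Algebra k[X] K] [IsFractionRing k[X] K]
  [Algebra K L] [Algebra k[X] L] [IsScalarTower k[X] K L]
  [Algebra K M] [Algebra k[X] M] [IsScalarTower k[X] K M]
  [Algebra L Ω] [Algebra M Ω] [Algebra K Ω] [IsScalarTower K L Ω] [IsScalarTower K M Ω]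
  [Algebra k[X] Ω] [IsScalarTower k[X] L Ω] [IsScalarTower k[X] M Ω]
  [CommRing O] [IsDedekindDomain O] [Algebra O L] [IsFractionRing O L] [Algebra k[X] O]
  [IsScalarTower k[X] O L] [IsIntegralClosure O k[X] L] [Module.Finite k[X] O]
  [FiniteDimensional K M] [IsGalois K M]
  [FiniteDimensional K Ω] [Algebra.IsSeparable K Ω] (R : Type)
  [CommRing R] [IsDedekindDomain R] [Algebra R M] [IsFractionRing R M] [Algebra k[X] R]
  [IsScalarTower k[X] R M] [IsIntegralClosure R k[X] M]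

include Ω O in
theorem selR3_mid (H : Parts) (hPQ : S_PARQ) {a b : k[X]} {θ : L} {N : ℕ} {a₀ b₀ : k}
    {S J : Finset k[X]} {s : k[X] → k[X]} (h6 : (6 : k) ≠ 0) (hc : IsCub K a b θ)
    (hS : GoodS S s) (hF : Fam N a₀ b₀ S s a b) (hJ : J ⊆ S) (hsel : SelJ (K := K) O J θ)
    (hA : Adm R J a b) {D : k[X]} (hD : InD a b D)
    {n : ℕ} (hM : Module.finrank K M = 2 ^ n) (hΩ : Module.finrank M Ω = 3)
    (hirrM : ∀ D : k[X], D ≠ 0 → Irreducible (X ^ 3 + C (algebraMap k[X] M (a * D ^ 2)) * X +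
      C (algebraMap k[X] M (b * D ^ 3)) : M[X])) :
    SelR R (sW (algebraMap k[X] M (a * ((∏ Q ∈ J, Q) * D) ^ 2))
      (algebraMap k[X] M (b * ((∏ Q ∈ J, Q) * D) ^ 3))) := by
  haveI : IsScalarTower k[X] K Ω := by
    refine IsScalarTower.of_algebraMap_eq fun x => ?_
    rw [IsScalarTower.algebraMap_apply k[X] M Ω, IsScalarTower.algebraMap_apply k[X] K M,
      ← IsScalarTower.algebraMap_apply K M Ω]
  haveI : Module.Finite k[X] R := IsIntegralClosure.finite k[X] K M R
  haveI : IsDedekindDomain (integralClosure k[X] Ω) := integralClosure.isDedekindDomain k[X] K Ω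
  haveI : IsFractionRing (integralClosure k[X] Ω) Ω :=
    integralClosure.isFractionRing_of_finite_extension K Ω
  haveI : Module.Finite k[X] (integralClosure k[X] Ω) := IsIntegralClosure.finite k[X] K Ω _
  exact selR3_abs O (integralClosure k[X] Ω) R H hPQ h6 hc hS hF hJ hsel hA hD hM hΩ hirrM

end mid

/-- The theorem on the Selmer groups: the set `J` depends only on the curve. -/
theorem selR3 (H : Parts) (hPQ : S_PARQ) (hIRK : S_IRK) {k : Type} [Field k] [Finite k] (K : Type)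
    [Field K] [Algebra k[X] K] [IsFractionRing k[X] K] {a b : k[X]} {N : ℕ} {a₀ b₀ : k}
    {S : Finset k[X]} {s : k[X] → k[X]} (h6 : (6 : k) ≠ 0)
    (hirr : Irreducible (X ^ 3 + C a₀ * X + C b₀ : k[X])) (hS : GoodS S s)
    (hF : Fam N a₀ b₀ S s a b) (hnb : ¬ LBad N S s a b) :
    ∃ J ⊆ S, ∀ (M : Type) [Field M] [Algebra K M] [Algebra k[X] M] [IsScalarTower k[X] K M]
      [FiniteDimensional K M] [IsGalois K M] (R : Type)
      [CommRing R] [IsDedekindDomain R] [Algebra R M] [IsFractionRing R M] [Algebra k[X] R]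
      [IsScalarTower k[X] R M] [IsIntegralClosure R k[X] M] (n : ℕ),
      Module.finrank K M = 2 ^ n → Adm R J a b → ∀ D : k[X], InD a b D →
      SelR R (sW (algebraMap k[X] M (a * ((∏ Q ∈ J, Q) * D) ^ 2))
        (algebraMap k[X] M (b * ((∏ Q ∈ J, Q) * D) ^ 3))) := by
  have hirr' : Irreducible (X ^ 3 + C (a.coeff (4 * N)) * X + C (b.coeff (6 * N)) : k[X]) := by
    rw [hF.ca, hF.cb]
    exact hirr
  have hI := hIRK k K a b N hF.da hF.db hirr'
  haveI hfact : Fact (Irreducible (FF K a b)) := ⟨by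
    have := hI 1 one_ne_zero
    rw [one_pow, one_pow, mul_one, mul_one] at this
    exact this⟩
  have hc := isCub_adjoinRoot (K := K) a b
  have h6K : (6 : K) ≠ 0 := by
    have : (6 : K) = algebraMap k[X] K (C 6) := by
      rw [show (C (6 : k) : k[X]) = 6 from rfl, map_ofNat]
    rw [this, Ne, IsFractionRing.to_map_eq_zero_iff, C_eq_zero]
    exact h6
  haveI : FiniteDimensional K (AdjoinRoot (FF K a b)) :=
    (FF_monic (K := K) a b).finite_adjoinRoot
  haveI : Algebra.IsSeparable K (AdjoinRoot (FF K a b)) := sep_adjoinRoot h6K a b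
  haveI : IsDedekindDomain (integralClosure k[X] (AdjoinRoot (FF K a b))) :=
    integralClosure.isDedekindDomain k[X] K _
  haveI : IsFractionRing (integralClosure k[X] (AdjoinRoot (FF K a b))) (AdjoinRoot (FF K a b)) :=
    integralClosure.isFractionRing_of_finite_extension K _
  haveI : Module.Finite k[X] (integralClosure k[X] (AdjoinRoot (FF K a b))) :=
    IsIntegralClosure.finite k[X] K (AdjoinRoot (FF K a b)) _
  obtain ⟨J, hJ, hsel⟩ := core2 (K := K) (L := AdjoinRoot (FF K a b))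
    (integralClosure k[X] (AdjoinRoot (FF K a b))) H.cls H.exq H.ns H.lin H.recp H.sd H.ttv H.lb h6
    hc hirr hS hF hnb
  refine ⟨J, hJ, ?_⟩
  intro M _ _ _ _ _ _ R _ _ _ _ _ _ _ n hM hA D hD
  have hirrM : ∀ D : k[X], D ≠ 0 → Irreducible (X ^ 3 + C (algebraMap k[X] M (a * D ^ 2)) * X +
      C (algebraMap k[X] M (b * D ^ 3)) : M[X]) := by
    intro D hD
    have h := irr_up hM (hI D hD)
    rwa [← IsScalarTower.algebraMap_apply k[X] K M, ← IsScalarTower.algebraMap_apply k[X] K M] at h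
  haveI hfactM : Fact (Irreducible (FF M a b)) := ⟨by
    have := hirrM 1 one_ne_zero
    rw [one_pow, one_pow, mul_one, mul_one] at this
    exact this⟩
  have hFm : (FF M a b).Monic := by
    unfold FF
    monicity!
  have hFd : (FF M a b).natDegree = 3 := by
    unfold FF
    compute_degree!
  have hFmap : FF M a b = (FF K a b).map (algebraMap K M) := by
    unfold FF
    simp only [Polynomial.map_add, Polynomial.map_mul, Polynomial.map_pow, map_X, map_C,
      ← IsScalarTower.algebraMap_apply k[X] K M]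
  obtain ⟨Ω, instF, instA, t, ht, hr, htop, hfin, hmin⟩ := exists_field hfactM.out hFm hFd
  letI : Algebra K Ω := ((algebraMap M Ω).comp (algebraMap K M)).toAlgebra
  haveI : IsScalarTower K M Ω := IsScalarTower.of_algebraMap_eq fun x => rfl
  letI : Algebra k[X] Ω := ((algebraMap M Ω).comp (algebraMap k[X] M)).toAlgebra
  haveI : IsScalarTower k[X] M Ω := IsScalarTower.of_algebraMap_eq fun x => rfl
  have ht' : (FF K a b).eval₂ (algebraMap K Ω) t = 0 := by
    rw [hFmap, aeval_def, eval₂_map] at ht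
    exact ht
  letI : Algebra (AdjoinRoot (FF K a b)) Ω := (AdjoinRoot.lift (algebraMap K Ω) t ht').toAlgebra
  have hL : ∀ x : AdjoinRoot (FF K a b), algebraMap (AdjoinRoot (FF K a b)) Ω x =
      AdjoinRoot.lift (algebraMap K Ω) t ht' x := fun x => rfl
  haveI : IsScalarTower K (AdjoinRoot (FF K a b)) Ω := by
    refine IsScalarTower.of_algebraMap_eq fun x => ?_
    rw [hL, AdjoinRoot.algebraMap_eq, AdjoinRoot.lift_of]
  haveI : IsScalarTower k[X] (AdjoinRoot (FF K a b)) Ω := by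
    refine IsScalarTower.of_algebraMap_eq fun x => ?_
    rw [IsScalarTower.algebraMap_apply k[X] K (AdjoinRoot (FF K a b)),
      ← IsScalarTower.algebraMap_apply K (AdjoinRoot (FF K a b)) Ω,
      IsScalarTower.algebraMap_apply k[X] M Ω, IsScalarTower.algebraMap_apply k[X] K M,
      ← IsScalarTower.algebraMap_apply K M Ω]
  haveI : FiniteDimensional K Ω := FiniteDimensional.trans K M Ω
  have h6M : (6 : M) ≠ 0 := by
    have e : (6 : M) = algebraMap K M 6 := by rw [map_ofNat]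
    rw [e, Ne, map_eq_zero]
    exact h6K
  haveI : Algebra.IsSeparable M Ω := by
    have hs : (FF M a b).Separable := by
      rw [separable_iff_derivative_ne_zero hfactM.out]
      intro h0
      have h1 : (derivative (FF M a b)).coeff 2 = 3 := by
        rw [coeff_derivative]
        simp [FF, coeff_X, coeff_C]
        norm_num
      rw [h0, coeff_zero] at h1
      apply h6M
      rw [show (6 : M) = 2 * 3 by norm_num, ← h1, mul_zero]
    have hsep : IsSeparable M t := by
      unfold IsSeparable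
      rw [hmin]
      exact hs
    haveI := (IntermediateField.isSeparable_adjoin_simple_iff_isSeparable M Ω).2 hsep
    rw [htop] at this
    exact AlgEquiv.Algebra.isSeparable (IntermediateField.topEquiv (F := M) (E := Ω))
  haveI : Algebra.IsSeparable K Ω := Algebra.IsSeparable.trans K M Ω
  exact selR3_mid (K := K) (L := AdjoinRoot (FF K a b)) (Ω := Ω)
    (integralClosure k[X] (AdjoinRoot (FF K a b))) R H hPQ h6 hc hS hF hJ hsel hA hD hM hr hirrM

end Run7.h875
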