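import Pool.Agent.Run7.h875.Ram2
import Pool.Agent.N692.PM.Tow
import Pool.Agent.N55.PM.SigLie
import Pool.Agent.N849.PM.Loc2

/-!
# Ramification and decomposition in the compositum with a cubic extension
-/

set_option autoImplicit false
set_option linter.all false

open Polynomial IsDedekindDomain WithZero
open Pool.Agent.N874.PP Pool.Agent.N874.PM
open scoped Classical Pointwise IntermediateField

namespace Run7.h875

section prm

variable {A B : Type} [CommRing A] [IsDedekindDomain A] [CommRing B] [IsDedekindDomain B]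
  [Algebra A B] [Algebra.IsIntegral A B] [Module.IsTorsionFree A B]

variable (A) in
theorem exists_under (w : HeightOneSpectrum B) :
    ∃ v : HeightOneSpectrum A, w.asIdeal.LiesOver v.asIdeal := by
  haveI := w.isPrime
  exact ⟨⟨w.asIdeal.under A, inferInstance, Ideal.IsIntegral.comap_ne_bot A w.ne_bot⟩, ⟨rfl⟩⟩

variable (B) in
theorem exists_prime_above (v : HeightOneSpectrum A) :
    ∃ w : HeightOneSpectrum B, w.asIdeal.LiesOver v.asIdeal := by
  haveI := v.isPrime
  obtain ⟨⟨Q, hQ1, hQ2⟩⟩ := (inferInstance : Nonempty (Ideal.primesOver v.asIdeal B))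
  haveI := hQ2
  exact ⟨⟨Q, hQ1, Ideal.ne_bot_of_liesOver_of_ne_bot v.ne_bot Q⟩, hQ2⟩

end prm

/-- The prime of `k[X]` defined by an irreducible polynomial. -/
noncomputable def pr {k : Type} [Field k] {P : k[X]} (hP : Irreducible P) : HeightOneSpectrum k[X] where
  asIdeal := Ideal.span {P}
  isPrime := (Ideal.span_singleton_prime hP.ne_zero).2 hP.prime
  ne_bot := by
    rw [Ne, Ideal.span_singleton_eq_bot]
    exact hP.ne_zero

theorem pr_over {k R : Type} [Field k] [CommRing R] [IsDedekindDomain R] [Algebra k[X] R]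
    {P : k[X]} (hP : Irreducible P) {w : HeightOneSpectrum R} (hw : Ov P w) :
    w.asIdeal.LiesOver (pr hP).asIdeal := by
  haveI := (pr hP).isMaximal
  haveI := w.isPrime
  refine ⟨(((pr hP).isMaximal).eq_of_le (Ideal.IsPrime.ne_top inferInstance) ?_)⟩
  show Ideal.span {P} ≤ w.asIdeal.under k[X]
  rw [Ideal.span_singleton_le_iff_mem]
  exact hw

theorem mem_pr {k : Type} [Field k] {P : k[X]} (hP : Irreducible P) (x : k[X]) :
    x ∈ (pr hP).asIdeal ↔ P ∣ x := Ideal.mem_span_singleton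

theorem pr_fin {k : Type} [Field k] [Finite k] {P : k[X]} (hP : Irreducible P) :
    Finite (k[X] ⧸ (pr hP).asIdeal) :=
  Pool.Agent.N539.PP.finite_residue (𝔓 := pr hP) (Q := P) hP
    (by
      show algebraMap k[X] k[X] P ∈ Ideal.span {P}
      exact Ideal.mem_span_singleton_self P)

section fixes

variable {K L M Ω : Type} [Field K] [Field L] [Field M] [Field Ω] [Algebra K L] [Algebra K M]
  [Algebra L Ω] [Algebra M Ω] [Algebra K Ω] [IsScalarTower K L Ω] [IsScalarTower K M Ω]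

/-- The restriction of an automorphism of `Ω` over `L` to `M`. -/
noncomputable def res [Normal K M] (σ : Ω ≃ₐ[L] Ω) : M ≃ₐ[K] M :=
  (σ.restrictScalars K).restrictNormal M

theorem res_apply [Normal K M] (σ : Ω ≃ₐ[L] Ω) (x : M) :
    algebraMap M Ω (res (K := K) σ x) = σ (algebraMap M Ω x) :=
  (σ.restrictScalars K).restrictNormal_commutes M x

theorem res_one [Normal K M] (htop : Pool.Agent.N692.PMTOW.im K M Ω ⊔
    Pool.Agent.N692.PMTOW.im K L Ω = ⊤) {σ : Ω ≃ₐ[L] Ω} (h : res (K := K) (M := M) σ = 1) :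
    σ = 1 := by
  ext x
  have hx := Pool.Agent.N692.PMTOW.adj_top (K := K) (L := L) (M := M) htop x
  induction hx using IntermediateField.adjoin_induction with
  | mem y hy =>
    obtain ⟨m, rfl⟩ := hy
    rw [← res_apply (K := K) σ m, h]
    rfl
  | algebraMap y => exact σ.commutes y
  | add y z hy hz h1 h2 => rw [map_add, map_add, h1, h2]
  | inv y hy h1 => rw [map_inv₀, map_inv₀, h1]
  | mul y z hy hz h1 h2 => rw [map_mul, map_mul, h1, h2]

end fixes

theorem lift_int (k : Type) {M Ω : Type} (O' R : Type) [Field k] [Field M] [Field Ω]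
    [Algebra k[X] M] [Algebra M Ω] [Algebra k[X] Ω] [IsScalarTower k[X] M Ω]
    [CommRing O'] [Algebra O' Ω] [Algebra k[X] O'] [IsScalarTower k[X] O' Ω]
    [IsIntegralClosure O' k[X] Ω]
    [CommRing R] [Algebra R M] [Algebra k[X] R] [IsScalarTower k[X] R M]
    [IsIntegralClosure R k[X] M] (x : R) :
    ∃ y : O', algebraMap O' Ω y = algebraMap M Ω (algebraMap R M x) := by
  have h : IsIntegral k[X] (algebraMap M Ω (algebraMap R M x)) :=
    ((IsIntegralClosure.isIntegral k[X] M x).algebraMap).algebraMap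
  exact ⟨IsIntegralClosure.mk' O' _ h, IsIntegralClosure.algebraMap_mk' O' _ h⟩

section up

variable {k K L M Ω : Type} (O O' R : Type) [Field k] [Finite k] [Field K] [Field L] [Field M]
  [Field Ω]
  [Algebra k[X] K] [IsFractionRing k[X] K]
  [Algebra K L] [Algebra k[X] L] [IsScalarTower k[X] K L]
  [Algebra K M] [Algebra k[X] M] [IsScalarTower k[X] K M]
  [Algebra L Ω] [Algebra M Ω] [Algebra K Ω] [IsScalarTower K L Ω] [IsScalarTower K M Ω]
  [Algebra k[X] Ω] [IsScalarTower k[X] L Ω] [IsScalarTower k[X] M Ω]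
  [CommRing O] [IsDedekindDomain O] [Algebra O L] [IsFractionRing O L] [Algebra k[X] O]
  [IsScalarTower k[X] O L] [IsIntegralClosure O k[X] L] [Module.Finite k[X] O]
  [CommRing O'] [IsDedekindDomain O'] [Algebra O' Ω] [IsFractionRing O' Ω] [Algebra k[X] O']
  [IsScalarTower k[X] O' Ω] [IsIntegralClosure O' k[X] Ω] [Module.Finite k[X] O']
  [CommRing R] [IsDedekindDomain R] [Algebra R M] [IsFractionRing R M] [Algebra k[X] R]
  [IsScalarTower k[X] R M] [IsIntegralClosure R k[X] M] [Module.Finite k[X] R] [IsGalois K M]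
  [FiniteDimensional K M]

/-- `P` is unramified in `R`. -/
def Unr {k : Type} [Field k] (R : Type) [CommRing R] [IsDedekindDomain R] [Algebra k[X] R]
    (P : k[X]) : Prop :=
  ∀ w : HeightOneSpectrum R, Ov P w → algebraMap k[X] R P ∉ w.asIdeal ^ 2

/-- The residue degree of `P` is at most two. -/
def Deg2 {k : Type} [Field k] (R : Type) [CommRing R] [IsDedekindDomain R] [Algebra k[X] R]
    (P : k[X]) : Prop :=
  ∀ w : HeightOneSpectrum R, Ov P w →
    Nat.card (R ⧸ w.asIdeal) ≤ Nat.card (k[X] ⧸ Ideal.span {P}) ^ 2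

theorem res_int {w : HeightOneSpectrum R} {𝔓' : HeightOneSpectrum O'}
    (hL : Lies (M := M) (Ω := Ω) w 𝔓') (y : M) (hy : w.valuation M y ≤ 1)
    (h : 𝔓'.valuation Ω (algebraMap M Ω y) < 1) : w.valuation M y < 1 := by
  rcases lt_or_eq_of_le hy with h1 | h1
  · exact h1
  · rw [Pool.Agent.N849.PM.Lies.eq_one hL h1] at h
    exact absurd h (lt_irrefl _)

include O' in
theorem inert_up {P : k[X]} (hP : Irreducible P) (hU : Unr R P)
    (htop : Pool.Agent.N692.PMTOW.im K M Ω ⊔ Pool.Agent.N692.PMTOW.im K L Ω = ⊤)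
    (𝔓' : HeightOneSpectrum O') (hov : Ov P 𝔓') {σ : Ω ≃ₐ[L] Ω}
    (hσ : ∀ x : O', 𝔓'.valuation Ω (σ (algebraMap O' Ω x) - algebraMap O' Ω x) < 1) : σ = 1 := by
  obtain ⟨w, hL, hO⟩ := Pool.Agent.N55.PM.lie k M Ω R O' 𝔓'
  have hPw : Ov P w := (hO P).2 hov
  haveI := pr_over hP hPw
  haveI := pr_fin hP
  obtain ⟨-, -, htf⟩ := inst_pack k[X] K M (B := R)
  have he := e_one_of (pr hP) w (π := P) (by rw [mem_pr]) (hU w hPw)
  refine res_one (K := K) (M := M) htop (inertia_one (K := K) (L := M) (pr hP) w he fun x => ?_)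
  obtain ⟨y, hy⟩ := lift_int k (M := M) (Ω := Ω) O' R x
  have h1 := hσ y
  rw [hy, ← res_apply (K := K) σ, ← map_sub] at h1
  refine res_int O' R hL _ ?_ h1
  refine (Valuation.map_sub _ _ _).trans (max_le ?_ (w.valuation_le_one x))
  rw [← act_apply (A := k[X])]
  exact w.valuation_le_one _

include O' in
theorem stab_up {a b Q : k[X]} {θ : L} (h2k : (2 : k) ≠ 0) (hQ : Irreducible Q) (hU : Unr R Q)
    (hD : Deg2 R Q) (hns : ∀ z : k[X], ¬ Q ∣ z ^ 2 + a) (hb : Q ∣ b)
    (hroot : θ ^ 3 + algebraMap k[X] L a * θ + algebraMap k[X] L b = 0)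
    (htop : Pool.Agent.N692.PMTOW.im K M Ω ⊔ Pool.Agent.N692.PMTOW.im K L Ω = ⊤)
    (𝔓' : HeightOneSpectrum O') (hov : Ov Q 𝔓')
    (hθ : 𝔓'.valuation Ω (algebraMap L Ω θ) = 1) {σ : Ω ≃ₐ[L] Ω}
    (hσ : ∀ x : O', 𝔓'.valuation Ω (algebraMap O' Ω x) < 1 →
      𝔓'.valuation Ω (σ (algebraMap O' Ω x)) < 1) : σ = 1 := by
  obtain ⟨w, hL, hO⟩ := Pool.Agent.N55.PM.lie k M Ω R O' 𝔓'
  have hQw : Ov Q w := (hO Q).2 hov
  haveI := pr_over hQ hQw
  haveI := pr_fin hQ
  obtain ⟨-, -, htf⟩ := inst_pack k[X] K M (B := R)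
  have he := e_one_of (pr hQ) w (π := Q) (by rw [mem_pr]) (hU w hQw)
  -- `θ ^ 2 + a` is small
  have ht2 : 𝔓'.valuation Ω (algebraMap L Ω θ ^ 2 + algebraMap k[X] Ω a) < 1 := by
    have e : (algebraMap L Ω θ ^ 2 + algebraMap k[X] Ω a) * algebraMap L Ω θ =
        - algebraMap k[X] Ω b := by
      have h1 := congrArg (algebraMap L Ω) hroot
      rw [map_zero, map_add, map_add, map_mul, map_pow, ← IsScalarTower.algebraMap_apply k[X] L Ω,
        ← IsScalarTower.algebraMap_apply k[X] L Ω] at h1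
      linear_combination h1
    have h3 := congrArg (𝔓'.valuation Ω) e
    rw [map_mul, hθ, mul_one, Valuation.map_neg] at h3
    rw [h3, ← ov_val (L := Ω)]
    obtain ⟨c, rfl⟩ := hb
    unfold Ov at hov ⊢
    rw [map_mul]
    exact Ideal.mul_mem_right _ _ hov
  -- elements of `R`
  have hlt : ∀ x : R, w.valuation M (algebraMap R M x) < 1 →
      w.valuation M (res (K := K) σ (algebraMap R M x)) < 1 := by
    intro x hx
    obtain ⟨y, hy⟩ := lift_int k (M := M) (Ω := Ω) O' R x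
    have h1 := hσ y (by rw [hy]; exact hL.lt _ hx)
    rw [hy, ← res_apply (K := K) σ] at h1
    refine res_int O' R hL _ ?_ h1
    rw [← act_apply (A := k[X])]
    exact w.valuation_le_one _
  refine res_one (K := K) (M := M) htop (stab_two (K := K) (L := M) (pr hQ) w he (hD w hQw)
    (c := -a) ?_ ?_ hlt fun z hz => ?_)
  · rw [mem_pr]
    intro h
    apply hQ.not_isUnit
    refine isUnit_of_dvd_unit h ?_
    rw [show (2 : k[X]) = C 2 from rfl, isUnit_C]
    exact h2k.isUnit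
  · intro z
    rw [mem_pr, sub_neg_eq_add]
    exact hns z
  · obtain ⟨y, hy⟩ := lift_int k (M := M) (Ω := Ω) O' R z
    -- `z` is `θ` or `- θ` modulo `𝔓'`
    have h1 : 𝔓'.valuation Ω (algebraMap O' Ω y ^ 2 + algebraMap k[X] Ω a) < 1 := by
      have e : algebraMap O' Ω y ^ 2 + algebraMap k[X] Ω a =
          algebraMap M Ω (algebraMap R M (z ^ 2 - algebraMap k[X] R (-a))) := by
        rw [hy, map_sub, map_sub, map_pow, map_pow, ← IsScalarTower.algebraMap_apply k[X] R M,
          ← IsScalarTower.algebraMap_apply k[X] M Ω, map_neg]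
        ring
      rw [e]
      refine hL.lt _ ?_
      rw [HeightOneSpectrum.valuation_lt_one_iff_mem]
      exact hz
    -- an integral element with image `θ`
    obtain ⟨t, ht⟩ : ∃ t : O', algebraMap O' Ω t = algebraMap L Ω θ := by
      have h : IsIntegral k[X] (algebraMap L Ω θ) := by
        refine IsIntegral.algebraMap ?_
        refine ⟨X ^ 3 + C a * X + C b, by monicity!, ?_⟩
        simp only [eval₂_add, eval₂_mul, eval₂_pow, eval₂_X, eval₂_C]
        exact hroot
      exact ⟨IsIntegralClosure.mk' O' _ h, IsIntegralClosure.algebraMap_mk' O' _ h⟩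
    have hσθ : σ (algebraMap L Ω θ) = algebraMap L Ω θ := σ.commutes θ
    have h2 : 𝔓'.valuation Ω (algebraMap O' Ω (y - t)) < 1 ∨
        𝔓'.valuation Ω (algebraMap O' Ω (y + t)) < 1 := by
      by_contra hcon
      push Not at hcon
      have h3 : 𝔓'.valuation Ω (algebraMap O' Ω (y - t)) = 1 :=
        le_antisymm (𝔓'.valuation_le_one _) hcon.1
      have h4 : 𝔓'.valuation Ω (algebraMap O' Ω (y + t)) = 1 :=
        le_antisymm (𝔓'.valuation_le_one _) hcon.2
      have h5 : 𝔓'.valuation Ω (algebraMap O' Ω (y - t) * algebraMap O' Ω (y + t)) < 1 := by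
        have e : algebraMap O' Ω (y - t) * algebraMap O' Ω (y + t) =
            (algebraMap O' Ω y ^ 2 + algebraMap k[X] Ω a) -
              (algebraMap L Ω θ ^ 2 + algebraMap k[X] Ω a) := by
          rw [map_sub, map_add, ht]
          ring
        rw [e]
        exact lt_of_le_of_lt (Valuation.map_sub _ _ _) (max_lt h1 ht2)
      rw [map_mul, h3, h4, mul_one] at h5
      exact absurd h5 (lt_irrefl _)
    refine res_int O' R hL _ ?_ ?_
    · refine (Valuation.map_sub _ _ _).trans (max_le ?_ (w.valuation_le_one z))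
      rw [← act_apply (A := k[X])]
      exact w.valuation_le_one _
    · rw [map_sub, res_apply, ← hy]
      rcases h2 with h3 | h3
      · have h4 := hσ _ h3
        have e : σ (algebraMap O' Ω y) - algebraMap O' Ω y =
            σ (algebraMap O' Ω (y - t)) - algebraMap O' Ω (y - t) := by
          rw [map_sub (algebraMap O' Ω), map_sub σ, ht, hσθ]
          ring
        rw [e]
        exact lt_of_le_of_lt (Valuation.map_sub _ _ _) (max_lt h4 h3)
      · have h4 := hσ _ h3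
        have e : σ (algebraMap O' Ω y) - algebraMap O' Ω y =
            σ (algebraMap O' Ω (y + t)) - algebraMap O' Ω (y + t) := by
          rw [map_add (algebraMap O' Ω), map_add σ, ht, hσθ]
          ring
        rw [e]
        exact lt_of_le_of_lt (Valuation.map_sub _ _ _) (max_lt h4 h3)

end up

/-- The integral closures as extensions of Dedekind rings. -/
theorem alg_pack (k : Type) {L Ω : Type} (O O' : Type) [Field k] [Field L] [Field Ω]
    [Algebra k[X] L] [Algebra L Ω] [Algebra k[X] Ω] [IsScalarTower k[X] L Ω]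
    [CommRing O] [Algebra O L] [Algebra k[X] O]
    [IsScalarTower k[X] O L] [IsIntegralClosure O k[X] L]
    [CommRing O'] [Algebra O' Ω] [Algebra k[X] O']
    [IsScalarTower k[X] O' Ω] [IsIntegralClosure O' k[X] Ω] :
    ∃ (_ : Algebra O Ω) (_ : Algebra O O'), IsScalarTower O L Ω ∧ IsScalarTower k[X] O Ω ∧
      IsScalarTower O O' Ω ∧ IsScalarTower k[X] O O' ∧ IsIntegralClosure O' O Ω := by
  letI a1 : Algebra O Ω := ((algebraMap L Ω).comp (algebraMap O L)).toAlgebra
  haveI t1 : IsScalarTower O L Ω := .of_algebraMap_eq fun _ => rfl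
  haveI t2 : IsScalarTower k[X] O Ω := .of_algebraMap_eq fun x => by
    rw [IsScalarTower.algebraMap_apply O L Ω, ← IsScalarTower.algebraMap_apply k[X] O L,
      ← IsScalarTower.algebraMap_apply k[X] L Ω]
  haveI : Algebra.IsIntegral k[X] O := IsIntegralClosure.isIntegral_algebra k[X] L
  letI a2 : Algebra O O' := (IsIntegralClosure.lift k[X] O' Ω (S := O)).toRingHom.toAlgebra
  have h : ∀ x : O, algebraMap O' Ω (algebraMap O O' x) = algebraMap O Ω x := fun x =>
    IsIntegralClosure.algebraMap_lift (R := k[X]) (A := O') (B := Ω) x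
  haveI t3 : IsScalarTower O O' Ω := .of_algebraMap_eq fun x => (h x).symm
  have hinj : Function.Injective (algebraMap O' Ω) :=
    IsIntegralClosure.algebraMap_injective O' k[X] Ω
  haveI t4 : IsScalarTower k[X] O O' := .of_algebraMap_eq fun x => by
    apply hinj
    rw [h, ← IsScalarTower.algebraMap_apply k[X] O' Ω, ← IsScalarTower.algebraMap_apply k[X] O Ω]
  refine ⟨a1, a2, t1, t2, t3, t4, ⟨hinj, fun {x} => ?_⟩⟩
  constructor
  · intro hx
    have h1 : IsIntegral k[X] x := isIntegral_trans x hx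
    exact ⟨IsIntegralClosure.mk' O' x h1, IsIntegralClosure.algebraMap_mk' O' x h1⟩
  · rintro ⟨y, rfl⟩
    exact (IsIntegralClosure.isIntegral k[X] Ω y).algebraMap.tower_top

section up2

variable {k K L M Ω : Type} (O O' R : Type) [Field k] [Finite k] [Field K] [Field L] [Field M]
  [Field Ω]
  [Algebra k[X] K] [IsFractionRing k[X] K]
  [Algebra K L] [Algebra k[X] L] [IsScalarTower k[X] K L]
  [Algebra K M] [Algebra k[X] M] [IsScalarTower k[X] K M]
  [Algebra L Ω] [Algebra M Ω] [Algebra K Ω] [IsScalarTower K L Ω] [IsScalarTower K M Ω]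
  [Algebra k[X] Ω] [IsScalarTower k[X] L Ω] [IsScalarTower k[X] M Ω]
  [CommRing O] [IsDedekindDomain O] [Algebra O L] [IsFractionRing O L] [Algebra k[X] O]
  [IsScalarTower k[X] O L] [IsIntegralClosure O k[X] L] [Module.Finite k[X] O]
  [CommRing O'] [IsDedekindDomain O'] [Algebra O' Ω] [IsFractionRing O' Ω] [Algebra k[X] O']
  [IsScalarTower k[X] O' Ω] [IsIntegralClosure O' k[X] Ω] [Module.Finite k[X] O']
  [CommRing R] [IsDedekindDomain R] [Algebra R M] [IsFractionRing R M] [Algebra k[X] R]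
  [IsScalarTower k[X] R M] [IsIntegralClosure R k[X] M] [Module.Finite k[X] R] [IsGalois K M]
  [FiniteDimensional K M] [FiniteDimensional L Ω] [IsGalois L Ω]

include R in
/-- Unramified primes, from above. -/
theorem val_up {P : k[X]} (hP : Irreducible P) (hU : Unr R P)
    (htop : Pool.Agent.N692.PMTOW.im K M Ω ⊔ Pool.Agent.N692.PMTOW.im K L Ω = ⊤)
    (𝔓' : HeightOneSpectrum O') (hov : Ov P 𝔓') :
    ∃ 𝔓 : HeightOneSpectrum O, ∀ x : L,
      𝔓'.valuation Ω (algebraMap L Ω x) = 𝔓.valuation L x := by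
  obtain ⟨a1, a2, t1, t2, t3, t4, t5⟩ := alg_pack k (L := L) (Ω := Ω) O O'
  obtain ⟨-, i2, i3⟩ := inst_pack O L Ω (B := O')
  obtain ⟨𝔓, h𝔓⟩ := exists_under O 𝔓'
  have hov' : Ov P 𝔓 := by
    unfold Ov at hov ⊢
    have e : 𝔓.asIdeal = 𝔓'.asIdeal.under O := h𝔓.over
    rw [e, Ideal.mem_comap, ← IsScalarTower.algebraMap_apply k[X] O O']
    exact hov
  haveI := Pool.Agent.N539.PP.finite_residue hP hov'
  have he := e_one_of_inertia (K := L) (L := Ω) 𝔓 𝔓' fun σ hσ =>
    inert_up O' R (K := K) (L := L) (M := M) hP hU htop 𝔓' hov hσ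
  exact ⟨𝔓, val_eq_of_e_one 𝔓 𝔓' he⟩

include R in
/-- Unramified primes, from below. -/
theorem val_down {P : k[X]} (hP : Irreducible P) (hU : Unr R P)
    (htop : Pool.Agent.N692.PMTOW.im K M Ω ⊔ Pool.Agent.N692.PMTOW.im K L Ω = ⊤)
    (𝔓 : HeightOneSpectrum O) (hov : Ov P 𝔓) :
    ∃ 𝔓' : HeightOneSpectrum O', ∀ x : L,
      𝔓'.valuation Ω (algebraMap L Ω x) = 𝔓.valuation L x := by
  obtain ⟨a1, a2, t1, t2, t3, t4, t5⟩ := alg_pack k (L := L) (Ω := Ω) O O'
  obtain ⟨-, i2, i3⟩ := inst_pack O L Ω (B := O')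
  obtain ⟨𝔓', h𝔓⟩ := exists_prime_above O' 𝔓
  have hov' : Ov P 𝔓' := by
    unfold Ov at hov ⊢
    have e : 𝔓.asIdeal = 𝔓'.asIdeal.under O := h𝔓.over
    rw [e, Ideal.mem_comap, ← IsScalarTower.algebraMap_apply k[X] O O'] at hov
    exact hov
  haveI := Pool.Agent.N539.PP.finite_residue hP hov
  have he := e_one_of_inertia (K := L) (L := Ω) 𝔓 𝔓' fun σ hσ =>
    inert_up O' R (K := K) (L := L) (M := M) hP hU htop 𝔓' hov' hσ
  exact ⟨𝔓', val_eq_of_e_one 𝔓 𝔓' he⟩

include R in
/-- Density. -/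
theorem dens_up {a b Q : k[X]} {θ : L} (h2k : (2 : k) ≠ 0) (hQ : Irreducible Q) (hU : Unr R Q)
    (hD : Deg2 R Q) (hns : ∀ z : k[X], ¬ Q ∣ z ^ 2 + a) (hb : Q ∣ b)
    (hroot : θ ^ 3 + algebraMap k[X] L a * θ + algebraMap k[X] L b = 0)
    (htop : Pool.Agent.N692.PMTOW.im K M Ω ⊔ Pool.Agent.N692.PMTOW.im K L Ω = ⊤)
    (𝔓 : HeightOneSpectrum O) (hov : Ov Q 𝔓) (hθ : 𝔓.valuation L θ = 1) :
    ∃ 𝔓' : HeightOneSpectrum O', (∀ x : L,
      𝔓'.valuation Ω (algebraMap L Ω x) = 𝔓.valuation L x) ∧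
      ∀ s : Ω, s ≠ 0 → ∃ s₀ : L, 𝔓'.valuation Ω (s - algebraMap L Ω s₀) < 𝔓'.valuation Ω s := by
  obtain ⟨a1, a2, t1, t2, t3, t4, t5⟩ := alg_pack k (L := L) (Ω := Ω) O O'
  obtain ⟨-, i2, i3⟩ := inst_pack O L Ω (B := O')
  obtain ⟨𝔓', h𝔓⟩ := exists_prime_above O' 𝔓
  have hov' : Ov Q 𝔓' := by
    unfold Ov at hov ⊢
    have e : 𝔓.asIdeal = 𝔓'.asIdeal.under O := h𝔓.over
    rw [e, Ideal.mem_comap, ← IsScalarTower.algebraMap_apply k[X] O O'] at hov
    exact hov
  haveI := Pool.Agent.N539.PP.finite_residue hQ hov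
  have he := e_one_of_inertia (K := L) (L := Ω) 𝔓 𝔓' fun σ hσ =>
    inert_up O' R (K := K) (L := L) (M := M) hQ hU htop 𝔓' hov' hσ
  have hv : ∀ x : L, 𝔓'.valuation Ω (algebraMap L Ω x) = 𝔓.valuation L x :=
    val_eq_of_e_one 𝔓 𝔓' he
  have hef := ef_one_of_stab (K := L) (L := Ω) 𝔓 𝔓' fun σ hσ =>
    stab_up O' R (K := K) (L := L) (M := M) h2k hQ hU hD hns hb hroot htop 𝔓' hov'
      (by rw [hv, hθ]) hσ
  exact ⟨𝔓', hv, dens_of (K := L) (L := Ω) 𝔓 𝔓' hef.1 hef.2⟩

end up2

end Run7.h875
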