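import Pool.Agent.Run7.h875.Cnd

/-!
# The conditions over the extension: the classes in the Selmer group
-/

set_option autoImplicit false
set_option linter.all false

open Polynomial IsDedekindDomain WeierstrassCurve WeierstrassCurve.Affine
open Pool.Agent.TH115.GD
open Pool.Agent.N874.PP Pool.Agent.N874.PM
open scoped Classical IntermediateField

namespace Run7.h875

/-- The polynomial `D` has only prime divisors modulo which the cubic polynomial has no zero. -/
def InD {k : Type} [Field k] (a b D : k[X]) : Prop :=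
  D ≠ 0 ∧ ∀ P : k[X], Irreducible P → P ∣ D → In a b P

/-- The conditions on the extension. -/
structure Adm {k : Type} [Field k] (R : Type) [CommRing R] [IsDedekindDomain R] [Algebra k[X] R]
    (J : Finset k[X]) (a b : k[X]) : Prop where
  unr : ∀ P : k[X], Irreducible P → (∃ z : k[X], P ∣ z ^ 3 + a * z + b) → Unr R P
  deg : ∀ Q ∈ J, Deg2 R Q

section top

variable {k K L M Ω : Type} (O O' R : Type) [Field k] [Finite k] [Field K] [Field L] [Field M]
  [Field Ω]
  [Algebra k[X] K] [IsFractionRing k[X] K]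
  [Algebra K L] [Algebra k[X] L] [IsScalarTower k[X] K L]
  [Algebra K M] [Algebra k[X] M] [IsScalarTower k[X] K M]
  [Algebra L Ω] [Algebra M Ω] [Algebra K Ω] [IsScalarTower K L Ω] [IsScalarTower K M Ω]
  [Algebra k[X] Ω] [IsScalarTower k[X] L Ω] [IsScalarTower k[X] M Ω]
  [CommRing O] [IsDedekindDomain O] [Algebra O L] [IsFractionRing O L] [Algebra k[X] O]
  [IsScalarTower k[X] O L] [IsIntegralClosure O k[X] L] [Module.Finite k[X] O]
  [CommRing O'] [IsDedekindDomain O'] [Algebra O' Ω] [IsFractionRing O' Ω] [Algebra k[X] O']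
  [IsScalarTower k[X] O' Ω] [IsIntegralClosure O' k[X] Ω] [Module.Finite k[X] O']
  [CommRing R] [IsDedekindDomain R] [Algebra R M] [IsFractionRing R M] [Algebra k[X] R]
  [IsScalarTower k[X] R M] [IsIntegralClosure R k[X] M] [Module.Finite k[X] R] [IsGalois K M]
  [FiniteDimensional K M] [FiniteDimensional L Ω] [IsGalois L Ω]

include O R in
/-- The element `Q θ` has odd valuation. -/
theorem odd3 (hEXQ : S_EXQ) {a b : k[X]} {θ : L} (h6 : (6 : k) ≠ 0)
    (hc : IsCub K a b θ) (hsq : Squarefree (dsc a b)) {Q : k[X]} (hQ : Irreducible Q) (hb : Q ∣ b)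
    (hns : ∀ z : k[X], ¬ Q ∣ z ^ 2 + a) (hU : Unr R Q)
    (htop : Pool.Agent.N692.PMTOW.im K M Ω ⊔ Pool.Agent.N692.PMTOW.im K L Ω = ⊤)
    (𝔓 : HeightOneSpectrum O') (h1 : Ov Q 𝔓)
    (h2 : 𝔓.valuation Ω (algebraMap L Ω θ) = 1) :
    ¬ Ev 𝔓 (algebraMap k[X] Ω Q * algebraMap L Ω θ) := by
  obtain ⟨𝔭, hv⟩ := val_up (K := K) (L := L) O O' R hQ hU htop 𝔓 h1
  obtain ⟨𝔓₁, 𝔮, h3, h4, h5, h7, h8, h9⟩ := hEXQ k K L O a b θ h6 hc hsq Q hQ hb hns
  have e : algebraMap k[X] Ω Q * algebraMap L Ω θ = algebraMap L Ω (algebraMap k[X] L Q * θ) := by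
    rw [map_mul, ← IsScalarTower.algebraMap_apply k[X] L Ω]
  rw [e, ev_down hv]
  rcases h9 𝔭 ((ov_down hv Q).1 h1) with rfl | rfl
  · rw [hv] at h2
    exact absurd h2 h5.ne
  · exact h8

include K in
/-- Polynomials prime to `Q` are squares at the zeros which are units. -/
theorem sq_poly {a b Q : k[X]} {θ : L} (hQ : Irreducible Q) (hb : Q ∣ b)
    (hns : ∀ z : k[X], ¬ Q ∣ z ^ 2 + a)
    (hroot : θ ^ 3 + algebraMap k[X] L a * θ + algebraMap k[X] L b = 0)
    (𝔓 : HeightOneSpectrum O') (h1 : Ov Q 𝔓)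
    (hθ : 𝔓.valuation Ω (algebraMap L Ω θ) = 1) (u : k[X]) :
    ∃ s : Ω, 𝔓.valuation Ω (s ^ 2 - algebraMap k[X] Ω u) < 1 := by
  haveI : IsScalarTower k[X] K Ω := by
    refine IsScalarTower.of_algebraMap_eq fun x => ?_
    rw [IsScalarTower.algebraMap_apply k[X] L Ω, IsScalarTower.algebraMap_apply k[X] K L,
      ← IsScalarTower.algebraMap_apply K L Ω]
  obtain ⟨v, hL, hO⟩ := Pool.Agent.N55.PM.lie k K Ω k[X] O' 𝔓
  have hQv : Ov Q v := (hO Q).2 h1
  haveI : Finite (k[X] ⧸ v.asIdeal) := Pool.Agent.N539.PP.finite_residue hQ hQv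
  have hb' : v.valuation K (algebraMap k[X] K b) < 1 := by
    rw [HeightOneSpectrum.valuation_lt_one_iff_mem]
    exact (Pool.Agent.N862.PP.ov_iff hQ hQv b).2 hb
  have h := Pool.Agent.N849.PM.sq_deg_two hL (a := algebraMap k[X] K a) (b := algebraMap k[X] K b)
    (θ := algebraMap L Ω θ) (by
      have h1 := congrArg (algebraMap L Ω) hroot
      rw [map_zero, map_add, map_add, map_mul, map_pow, ← IsScalarTower.algebraMap_apply k[X] L Ω,
        ← IsScalarTower.algebraMap_apply k[X] L Ω] at h1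
      rw [← IsScalarTower.algebraMap_apply k[X] K Ω, ← IsScalarTower.algebraMap_apply k[X] K Ω]
      exact h1) (v.valuation_le_one a) hb' (fun z hz => ns_K hQ hns v hQv z hz)
    (u := algebraMap k[X] K u) (v.valuation_le_one u) hθ
  rw [← IsScalarTower.algebraMap_apply k[X] K Ω] at h
  exact h

include O in
theorem top3 (hEXQ : S_EXQ) (hLOC1M : S_LOC1M) {a b D : k[X]} {θ : L} {N : ℕ} {a₀ b₀ : k}
    {S J : Finset k[X]} {s : k[X] → k[X]} (h6 : (6 : k) ≠ 0) (hc : IsCub K a b θ)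
    (hS : GoodS S s) (hF : Fam N a₀ b₀ S s a b) (hJ : J ⊆ S) (hA : Adm R J a b)
    (hD : InD a b D)
    (htop : Pool.Agent.N692.PMTOW.im K M Ω ⊔ Pool.Agent.N692.PMTOW.im K L Ω = ⊤)
    {h : M[X]}
    (hloc : ∀ w : HeightOneSpectrum R, PLoc (w.adicCompletion M)
      (algebraMap k[X] M (a * ((∏ Q ∈ J, Q) * D) ^ 2))
      (algebraMap k[X] M (b * ((∏ Q ∈ J, Q) * D) ^ 3)) h)
    (h0 : aeval (algebraMap k[X] Ω ((∏ Q ∈ J, Q) * D) * algebraMap L Ω θ) h ≠ 0) :
    Cnd3 O' J (In a b) (algebraMap L Ω θ)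
      (aeval (algebraMap k[X] Ω ((∏ Q ∈ J, Q) * D) * algebraMap L Ω θ) h) := by
  haveI : Algebra.IsIntegral k[X] R := IsIntegralClosure.isIntegral_algebra k[X] M
  haveI : Algebra.IsIntegral k[X] O' := IsIntegralClosure.isIntegral_algebra k[X] Ω
  have hroot : (algebraMap L Ω θ) ^ 3 + algebraMap M Ω (algebraMap k[X] M a) * algebraMap L Ω θ +
      algebraMap M Ω (algebraMap k[X] M b) = 0 := by
    have h1 := congrArg (algebraMap L Ω) hc.root
    rw [map_zero, map_add, map_add, map_mul, map_pow, ← IsScalarTower.algebraMap_apply k[X] L Ω,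
      ← IsScalarTower.algebraMap_apply k[X] L Ω] at h1
    rw [← IsScalarTower.algebraMap_apply k[X] M Ω, ← IsScalarTower.algebraMap_apply k[X] M Ω]
    exact h1
  have h2k : (2 : k) ≠ 0 := by
    intro h
    apply h6
    have : (6 : k) = 2 * 3 := by norm_num
    rw [this, h, zero_mul]
  have hJU : ∀ Q ∈ J, Unr R Q := fun Q hQ => hA.unr Q (hS Q (hJ hQ)).2.1 ⟨0, by
    have := hF.rb Q (hJ hQ)
    simpa using this⟩
  refine ⟨fun 𝔓 h1 h2 => ?_, fun Q hQ 𝔓 h𝔓 h3 => ?_⟩
  · obtain ⟨w, hw, hO⟩ := Pool.Agent.N55.PM.lie k M Ω R O' 𝔓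
    obtain ⟨P, hP1, hP2, hP3⟩ := exists_below (k := k) w
    have hnI : ¬ In a b P := fun hI => h1 P hI ((hO P).1 hP3)
    have hz : ∃ z : k[X], P ∣ z ^ 3 + a * z + b := by
      by_contra hcon
      push Not at hcon
      exact hnI ⟨hP2, hcon⟩
    have hU := hA.unr P hP2 hz
    have hDv : w.valuation M (algebraMap k[X] M ((∏ Q ∈ J, Q) * D)) = 1 := by
      refine val_eq_of _ w fun h => ?_
      rcases ov_mul h with h' | h'
      · obtain ⟨Q, hQ, h''⟩ := ov_prod h'
        exact h2 Q hQ ((hO Q).1 h'')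
      · exact hnI (hD.2 P hP2 ((Pool.Agent.N862.PP.ov_iff hP2 hP3 D).1 h'))
    have hdisc : WithZero.exp (-1 : ℤ) ≤ w.valuation M (4 * (algebraMap k[X] M a) ^ 3 +
        27 * (algebraMap k[X] M b) ^ 2) := by
      have e : 4 * (algebraMap k[X] M a) ^ 3 + 27 * (algebraMap k[X] M b) ^ 2 =
          algebraMap k[X] M (dsc a b) := by
        simp only [dsc, map_mul, map_add, map_pow, map_ofNat]
      rw [e]
      exact val_unr_sqf (K := K) R hP2 hU w hP3 hF.sq
    have e3 : algebraMap M Ω (algebraMap k[X] M ((∏ P ∈ J, P) * D)) =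
        algebraMap k[X] Ω ((∏ P ∈ J, P) * D) := (IsScalarTower.algebraMap_apply k[X] M Ω _).symm
    have hl := hloc w
    rw [map_mul _ a, map_mul _ b, map_pow, map_pow] at hl
    have h3 := hLOC1M M Ω R O' w 𝔓 hw (algebraMap k[X] M a) (algebraMap k[X] M b)
      (algebraMap k[X] M ((∏ P ∈ J, P) * D)) (algebraMap L Ω θ) h hroot
      (val_six h6 w) (val_le a w) (val_le b w) hDv hdisc hl (by rw [e3]; exact h0)
    rw [e3] at h3
    exact h3
  · have hQS := hJ hQ
    have hQi := (hS Q hQS).2.1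
    obtain ⟨w, hw, hO⟩ := Pool.Agent.N55.PM.lie k M Ω R O' 𝔓
    have hQw : Ov Q w := (hO Q).2 h𝔓
    have hprod : (∏ P ∈ J, P) = Q * ∏ P ∈ J.erase Q, P := (Finset.mul_prod_erase J id hQ).symm
    have hϖ : w.valuation M (algebraMap k[X] M Q) = WithZero.exp (-1 : ℤ) := by
      refine le_antisymm (val_le_exp w ?_ ((ov_val Q w).1 hQw)) ?_
      · rw [IsScalarTower.algebraMap_apply k[X] K M]
        rw [Ne, map_eq_zero, IsFractionRing.to_map_eq_zero_iff]
        exact hQi.ne_zero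
      · exact val_unr_sqf (K := K) R hQi (hJU Q hQ) w hQw hQi.squarefree
    have hD' : w.valuation M (algebraMap k[X] M ((∏ P ∈ J.erase Q, P) * D)) = 1 := by
      refine val_eq_of _ w fun h => ?_
      rcases ov_mul h with h' | h'
      · obtain ⟨P, hP, hP'⟩ := ov_prod h'
        have hPS := hJ (Finset.mem_of_mem_erase hP)
        exact Finset.ne_of_mem_erase hP
          (below_unique (hS P hPS).1 (hS P hPS).2.1 (hS Q hQS).1 (hS Q hQS).2.1 hP' hQw)
      · have h5 := hD.2 Q hQi ((Pool.Agent.N862.PP.ov_iff hQi hQw D).1 h')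
        apply h5.2 0
        have := hF.rb Q hQS
        simpa using this
    have hb1 : w.valuation M (algebraMap k[X] M b) < 1 := by
      rw [← ov_val]
      exact (Pool.Agent.N862.PP.ov_iff hQi hQw b).2 (hF.rb Q hQS)
    have e1 : algebraMap k[X] M (a * ((∏ Q ∈ J, Q) * D) ^ 2) = algebraMap k[X] M a *
        (algebraMap k[X] M Q * algebraMap k[X] M ((∏ P ∈ J.erase Q, P) * D)) ^ 2 := by
      rw [hprod]
      simp only [map_mul, map_pow]
      ring
    have e2 : algebraMap k[X] M (b * ((∏ Q ∈ J, Q) * D) ^ 3) = algebraMap k[X] M b *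
        (algebraMap k[X] M Q * algebraMap k[X] M ((∏ P ∈ J.erase Q, P) * D)) ^ 3 := by
      rw [hprod]
      simp only [map_mul, map_pow]
      ring
    have e3 : algebraMap M Ω (algebraMap k[X] M Q * algebraMap k[X] M
        ((∏ P ∈ J.erase Q, P) * D)) = algebraMap k[X] Ω ((∏ P ∈ J, P) * D) := by
      rw [hprod, ← map_mul, ← IsScalarTower.algebraMap_apply k[X] M Ω, mul_assoc]
    have hl := hloc w
    rw [e1, e2] at hl
    obtain ⟨s₁, hs₁⟩ := sq_poly (K := K) O' hQi (hF.rb Q hQS) (fam_ns hS hF hQS) hc.root 𝔓 h𝔓 h3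
      (-((∏ P ∈ J.erase Q, P) * D))
    obtain ⟨s₂, hs₂⟩ := sq_poly (K := K) O' hQi (hF.rb Q hQS) (fam_ns hS hF hQS) hc.root 𝔓 h𝔓 h3
      (C 2)
    have hev := odd3 O O' R hEXQ h6 hc hF.sq hQi (hF.rb Q hQS) (fam_ns hS hF hQS) (hJU Q hQ) htop
      𝔓 h𝔓 h3
    have h5 := loc4 w 𝔓 hw (algebraMap k[X] M a) (algebraMap k[X] M b) (algebraMap k[X] M Q)
      (algebraMap k[X] M ((∏ P ∈ J.erase Q, P) * D)) (algebraMap L Ω θ) h hroot (val_two h6 w)
      (val_le a w) hb1 hϖ hD' h3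
      (s₁ := s₁) (by
        rw [map_neg, sub_neg_eq_add] at hs₁
        rw [← IsScalarTower.algebraMap_apply k[X] M Ω]
        exact hs₁)
      (s₂ := s₂) (by
        have e : algebraMap k[X] Ω (C 2) = 2 := by
          rw [show (C (2 : k) : k[X]) = 2 from rfl, map_ofNat]
        rwa [e] at hs₂) hl (by rw [e3]; exact h0)
      (by
        rw [← IsScalarTower.algebraMap_apply k[X] M Ω]
        exact hev)
    rw [e3, ← IsScalarTower.algebraMap_apply k[X] M Ω] at h5
    exact h5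

end top

end Run7.h875
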